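import Pool.Agent.X31.M3
import Pool.Agent.X31.S3
import Pool.Agent.X31.S4

set_option autoImplicit false

/-! # Almost all multipliers with missing digits, all shifts at once -/

namespace Pool.Agent.X275.MD

open Finset Filter Topology
open Pool.Agent.X31 (Sch PBil FamP FamO)
open Pool.Agent.X31.CT (Dg DS KK mem_KK card_split card_pos' Dg_eq)

/-- `R` holds for all integers near almost all members of the families of the scheme `P` -/
def Alm {ι : Type} (P : ℕ → ℕ → Finset ι → (ι → ℝ) → Prop) (R : ℕ → ℤ → Prop) : Prop :=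
  ∀ D U : ℕ, ∃ N₀ : ℕ, ∀ N : ℕ, N₀ ≤ N → ∀ (A : Finset ι) (φ : ι → ℝ), P D N A φ →
    ∃ E : Finset ι, (E.card : ℝ) ≤ A.card / Real.log N ^ U ∧ ∀ n ∈ A, n ∉ E →
      ∀ s : ℤ, |(s : ℝ) - φ n| ≤ Real.log N ^ D → R N s

lemma alm_single {ι : Type} {P : ℕ → ℕ → Finset ι → (ι → ℝ) → Prop} (HS : Sch P) {Q : ℕ → ℤ → Prop}
    (HQ : ∀ h : ℕ, 1 ≤ h → FamO h Q) : Alm P Q := fun D U => HS.single D U Q HQ

lemma alm_even {ι : Type} {P : ℕ → ℕ → Finset ι → (ι → ℝ) → Prop} (HS : Sch P) {Q : ℕ → Prop}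
    (HQ : ∀ h : ℕ, 1 ≤ h → FamP h Q) : Alm P (fun _ s => 0 < s → Even s → Q s.toNat) := by
  intro D U
  obtain ⟨N₀, h0⟩ := HS.even D U Q HQ
  refine ⟨N₀, fun N hN A φ hP => ?_⟩
  obtain ⟨E, hE1, hE2⟩ := h0 N hN A φ hP
  refine ⟨E, hE1, fun n hn hnE s hs hs0 hs2 => ?_⟩
  obtain ⟨k, rfl⟩ : ∃ k : ℕ, s = k := ⟨s.toNat, (Int.toNat_of_nonneg hs0.le).symm⟩
  rw [Int.toNat_natCast]
  apply hE2 n hn hnE k (by exact_mod_cast hs0) _ (by exact_mod_cast hs)
  exact (Int.even_coe_nat k).1 hs2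

lemma log_ev (K : ℝ) : ∃ N₀ : ℕ, ∀ N : ℕ, N₀ ≤ N → K ≤ Real.log N := by
  have h := (Real.tendsto_log_atTop.comp tendsto_natCast_atTop_atTop).eventually_ge_atTop K
  exact eventually_atTop.1 h

/-- binary digits without restriction -/
lemma Dg_two (m : ℕ) : Dg 2 (fun _ => range 2) m = range (2 ^ m) := by
  unfold Pool.Agent.X31.CT.Dg
  apply filter_true_of_mem
  intro n _ i _
  exact mem_range.2 (Nat.mod_lt _ (by norm_num))

lemma DS_two : DS 2 (fun _ => range 2) := fun _ => ⟨subset_rfl, by simp⟩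

/-- few members of the sets with missing digits are small -/
lemma small_le {b : ℕ} (hb : 2 ≤ b) {𝒟 : ℕ → Finset ℕ} (h : DS b 𝒟) (j n : ℕ) :
    (((Dg b 𝒟 (j + n)).filter (fun k => k < b ^ j)).card : ℝ) ≤ (Dg b 𝒟 (j + n)).card / 2 ^ n := by
  have h1 : ((Dg b 𝒟 (j + n)).filter (fun k => k < b ^ j)) ⊆ KK b 𝒟 j := by
    intro k hk
    rw [mem_filter, Dg_eq hb h, mem_KK hb _ h] at hk
    rw [mem_KK hb _ h]
    exact ⟨hk.2, fun i hi => hk.1.2 i (by omega)⟩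
  have h2 := card_split hb h j n
  have h3 := card_pos' hb n (Pool.Agent.X31.CT.DS_sh h j)
  rw [le_div_iff₀ (by positivity), Dg_eq hb h (j + n), h2]
  have h4 : (((KK b 𝒟 (j + n)).filter (fun k => k < b ^ j)).card : ℝ) ≤ (KK b 𝒟 j).card := by
    rw [← Dg_eq hb h (j + n)]
    exact_mod_cast card_le_card h1
  have h5 : (2 : ℝ) ^ n ≤ (KK b (Pool.Agent.X31.CT.sh j 𝒟) n).card := by exact_mod_cast h3
  push_cast
  calc _ ≤ ((KK b 𝒟 j).card : ℝ) * 2 ^ n := mul_le_mul_of_nonneg_right h4 (by positivity)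
    _ ≤ _ := mul_le_mul_of_nonneg_left h5 (Nat.cast_nonneg _)

open Classical in
/-- the `y < 2 ^ m` for which `u y + δ` is at most `N` in absolute value and close to an integer without `R` -/
noncomputable def bad (R : ℕ → ℤ → Prop) (D N m : ℕ) (u δ : ℝ) : Finset ℕ :=
  (range (2 ^ m)).filter (fun y : ℕ => |u * y + δ| ≤ N ∧
    ∃ s : ℤ, |(s : ℝ) - (u * y + δ)| ≤ Real.log N ^ D ∧ ¬ R N s)

/-- For almost all `x` with missing digits, for EVERY shift `δ`, almost all `θ (x + c₀) y + δ` are near integers with `R`. -/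
theorem core {b : ℕ} (hb : 2 ≤ b) (lam : ℕ) (R : ℕ → ℤ → Prop) (HR : Alm (PBil b 2 lam) R) (D : ℕ) :
    ∃ N₀ : ℕ, ∀ N : ℕ, N₀ ≤ N → ∀ (m₁ m₂ : ℕ) (𝒟 : ℕ → Finset ℕ) (θ c₀ : ℝ), DS b 𝒟 → m₁ ≤ lam * m₂ → m₂ ≤ lam * m₁ →
      |θ| ≤ Real.log N ^ D → (N : ℝ) / Real.log N ^ D ≤ |θ| * ((b : ℝ) ^ m₁ * 2 ^ m₂) →
      ∀ X : Finset ℕ, X ⊆ Dg b 𝒟 m₁ →
        (∀ x ∈ X, ∃ δ : ℝ, (2 : ℝ) ^ m₂ / Real.log N ^ D ≤ ((bad R D N m₂ (θ * (x + c₀)) δ).card : ℝ)) →
        (X.card : ℝ) ≤ (Dg b 𝒟 m₁).card / Real.log N ^ D := by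
  classical
  obtain ⟨N₁, h1⟩ := HR (2 * D) 1
  obtain ⟨N₂, h2⟩ := log_ev 2
  refine ⟨N₁ + N₂, fun N hN m₁ m₂ 𝒟 θ c₀ hD hl1 hl2 hθ hsz X hX hbad => ?_⟩
  have hL2 := h2 N (by omega)
  have hL1 : 1 ≤ Real.log N := by linarith
  obtain ⟨L, hL⟩ : ∃ L, L = Real.log (N : ℝ) := ⟨_, rfl⟩
  obtain ⟨T, hT⟩ : ∃ T, T = Real.log (N : ℝ) ^ D := ⟨_, rfl⟩
  have hT1 : 1 ≤ T := by rw [hT]; exact one_le_pow₀ hL1
  have hT0 : 0 < T := by linarith
  have hTT : Real.log (N : ℝ) ^ (2 * D) = T * T := by rw [hT, two_mul, pow_add]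
  have hTle : T ≤ T * T := by nlinarith
  by_contra hcon
  push Not at hcon
  rw [← hT] at hcon hsz hθ
  choose! δ hδ using hbad
  obtain ⟨A, hA⟩ : ∃ A : Finset (ℕ × ℕ), A = (Dg b 𝒟 m₁ ×ˢ range (2 ^ m₂)).filter
    (fun p => p.1 ∈ X ∧ p.2 ∈ bad R D N m₂ (θ * (p.1 + c₀)) (δ p.1)) := ⟨_, rfl⟩
  have hAc : (A.card : ℝ) = ∑ x ∈ X, ((bad R D N m₂ (θ * (x + c₀)) (δ x)).card : ℝ) := by
    have e1 : A = (X.sigma (fun x : ℕ => bad R D N m₂ (θ * (x + c₀)) (δ x))).map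
        ⟨fun p : (_ : ℕ) × ℕ => (p.1, p.2), fun p q h => by
          simp only [Prod.mk.injEq] at h
          exact Sigma.ext h.1 (heq_of_eq h.2)⟩ := by
      ext p
      rw [hA, mem_filter, mem_product, Finset.mem_map]
      constructor
      · rintro ⟨_, h4, h5⟩
        exact ⟨⟨p.1, p.2⟩, mem_sigma.2 ⟨h4, h5⟩, rfl⟩
      · rintro ⟨q, hq, rfl⟩
        rw [mem_sigma] at hq
        exact ⟨⟨hX hq.1, (mem_filter.1 hq.2).1⟩, hq.1, hq.2⟩
    rw [e1, card_map, card_sigma]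
    push_cast
    rfl
  have hlow : (X.card : ℝ) * ((2 : ℝ) ^ m₂ / T) ≤ A.card := by
    rw [hAc, ← nsmul_eq_mul, ← sum_const]
    apply sum_le_sum
    intro x hx
    rw [hT]
    exact hδ x hx
  have hXpos : 0 < (X.card : ℝ) := lt_of_le_of_lt (by positivity) hcon
  have hApos : 0 < (A.card : ℝ) := lt_of_lt_of_le (by positivity) hlow
  obtain ⟨E, hE1, hE2⟩ := h1 N (by omega) A (fun p => θ * ((p.1 : ℝ) * p.2) + δ p.1 + θ * c₀ * p.2)
    ⟨m₁, m₂, 𝒟, fun _ => range 2, θ, δ, fun y => θ * c₀ * y,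
      { ds₁ := hD
        ds₂ := DS_two
        len₁ := hl1
        len₂ := hl2
        lead := by rw [hTT]; linarith
        size := by
          rw [hTT]
          push_cast
          refine le_trans ?_ hsz
          exact div_le_div_of_nonneg_left (Nat.cast_nonneg _) hT0 hTle
        sub := by
          rw [Dg_two, hA]
          exact filter_subset _ _
        dense := by
          rw [Dg_two, card_range, hTT]
          push_cast
          refine le_trans ?_ hlow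
          have h5 : ((Dg b 𝒟 m₁).card : ℝ) / T * (2 ^ m₂ / T) ≤ X.card * (2 ^ m₂ / T) :=
            mul_le_mul_of_nonneg_right hcon.le (by positivity)
          refine le_trans (le_of_eq ?_) h5
          field_simp
        bd := by
          intro p hp
          rw [hA, mem_filter] at hp
          have h5 := (mem_filter.1 hp.2.2).2.1
          refine le_trans (le_of_eq ?_) h5
          congr 1
          ring }, fun p => rfl⟩
  have hAE : A ⊆ E := by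
    intro p hp
    by_contra hcon2
    have h5 := hE2 p hp hcon2
    rw [hA, mem_filter] at hp
    obtain ⟨s, hs1, hs2⟩ := (mem_filter.1 hp.2.2).2.2
    apply hs2
    apply h5 s
    rw [hTT, ← hT.symm.symm] at *
    rw [← hT] at hs1
    refine le_trans (le_of_eq ?_) (hs1.trans hTle)
    congr 1
    ring
  have h6 : (A.card : ℝ) ≤ E.card := by exact_mod_cast card_le_card hAE
  rw [pow_one] at hE1
  have h7 : (A.card : ℝ) / Real.log N ≤ A.card / 2 := div_le_div_of_nonneg_left hApos.le (by norm_num) hL2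
  linarith

end Pool.Agent.X275.MD
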