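import Pool.Agent.X275.MD.MD1

set_option autoImplicit false

/-! # Almost all moduli with missing digits: all residue classes at once -/

namespace Pool.Agent.X275.MD

open Finset Filter Topology
open Pool.Agent.X31 (Sch PBil FamP FamO)
open Pool.Agent.X31.CT (Dg DS)

open Classical in
/-- the `n ≤ N` in the class of `a` modulo `q` without the property `R` -/
noncomputable def badc (R : ℕ → ℤ → Prop) (N q a : ℕ) : Finset ℕ :=
  (Icc 1 N).filter (fun n : ℕ => n ≡ a [MOD q] ∧ ¬ R N n)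

lemma log_nat_le (b : ℕ) : Real.log b ≤ b * Real.log 2 := by
  have h1 : (b : ℝ) ≤ 2 ^ b := by exact_mod_cast Nat.lt_two_pow_self.le
  rcases Nat.eq_zero_or_pos b with h | h
  · simp [h]
  · have h2 := Real.log_le_log (by exact_mod_cast h) h1
    rwa [Real.log_pow] at h2

lemma exists_m (Y : ℝ) (hY : 1 ≤ Y) : ∃ m : ℕ, 1 ≤ m ∧ Y < 2 ^ m ∧ (2 : ℝ) ^ m ≤ 2 * Y := by
  have h1 : 1 ≤ ⌊Y⌋₊ := Nat.le_floor (by exact_mod_cast hY)
  refine ⟨Nat.log 2 ⌊Y⌋₊ + 1, by omega, ?_, ?_⟩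
  · have h2 : ⌊Y⌋₊ < 2 ^ (Nat.log 2 ⌊Y⌋₊ + 1) := Nat.lt_pow_succ_log_self (by norm_num) _
    have h3 : ((⌊Y⌋₊ + 1 : ℕ) : ℝ) ≤ ((2 ^ (Nat.log 2 ⌊Y⌋₊ + 1) : ℕ) : ℝ) := by exact_mod_cast h2
    push_cast at h3
    exact lt_of_lt_of_le (Nat.lt_floor_add_one Y) h3
  · have h2 : 2 ^ Nat.log 2 ⌊Y⌋₊ ≤ ⌊Y⌋₊ := Nat.pow_log_le_self 2 (by omega)
    have h3 : ((2 ^ Nat.log 2 ⌊Y⌋₊ : ℕ) : ℝ) ≤ ((⌊Y⌋₊ : ℕ) : ℝ) := by exact_mod_cast h2
    push_cast at h3
    have h4 := Nat.floor_le (zero_le_one.trans hY)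
    rw [pow_succ]
    linarith

/-- the number `lam` for the range `N ^ η ≤ b ^ M ≤ N ^ (1 - η)` -/
lemma lens {b : ℕ} (hb : 2 ≤ b) (η : ℝ) (hη : 0 < η) (lam : ℕ) (hlam : 2 * b / η ≤ lam) {N M m : ℕ}
    (hN : 2 ≤ N) (h1 : (N : ℝ) ^ η ≤ (b : ℝ) ^ M) (h2 : (b : ℝ) ^ M ≤ (N : ℝ) ^ (1 - η))
    (h3 : (N : ℝ) / (b : ℝ) ^ M ≤ 2 ^ m) (h4 : (2 : ℝ) ^ m ≤ (N : ℝ) ^ 2) : M ≤ lam * m ∧ m ≤ lam * M := by
  have hN0 : (0 : ℝ) < N := by exact_mod_cast (by omega : 0 < N)
  have hb0 : (0 : ℝ) < b := by exact_mod_cast (by omega : 0 < b)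
  have hb2 : (2 : ℝ) ≤ b := by exact_mod_cast hb
  have hlN : 0 < Real.log N := Real.log_pos (by exact_mod_cast (by omega : 1 < N))
  have hl2 : 0 < Real.log 2 := Real.log_pos (by norm_num)
  have hlb : Real.log 2 ≤ Real.log b := Real.log_le_log (by norm_num) hb2
  have hlb' := log_nat_le b
  have e1 : η * Real.log N ≤ M * Real.log b := by
    have := Real.log_le_log (Real.rpow_pos_of_pos hN0 η) h1
    rwa [Real.log_rpow hN0, Real.log_pow] at this
  have e2 : (M : ℝ) * Real.log b ≤ (1 - η) * Real.log N := by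
    have := Real.log_le_log (by positivity) h2
    rwa [Real.log_rpow hN0, Real.log_pow] at this
  have e3 : Real.log N - M * Real.log b ≤ m * Real.log 2 := by
    have := Real.log_le_log (by positivity) h3
    rwa [Real.log_div hN0.ne' (by positivity), Real.log_pow, Real.log_pow] at this
  have e4 : (m : ℝ) * Real.log 2 ≤ 2 * Real.log N := by
    have := Real.log_le_log (by positivity) h4
    rw [Real.log_pow, Real.log_pow] at this
    exact_mod_cast this
  have e5 : η * Real.log N ≤ m * Real.log 2 := by nlinarith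
  have hlamη : 2 * b ≤ lam * η := by rwa [div_le_iff₀ hη] at hlam
  have hlam0 : (0 : ℝ) ≤ lam := Nat.cast_nonneg _
  have hM0 : (0 : ℝ) ≤ M := Nat.cast_nonneg _
  have hm0 : (0 : ℝ) ≤ m := Nat.cast_nonneg _
  constructor
  · have : (M : ℝ) * Real.log 2 ≤ (lam * m : ℝ) * Real.log 2 := by
      calc (M : ℝ) * Real.log 2 ≤ M * Real.log b := mul_le_mul_of_nonneg_left hlb hM0
        _ ≤ (1 - η) * Real.log N := e2
        _ ≤ 1 * Real.log N := mul_le_mul_of_nonneg_right (by linarith) hlN.le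
        _ ≤ (lam * η) * Real.log N := mul_le_mul_of_nonneg_right (by linarith) hlN.le
        _ = lam * (η * Real.log N) := by ring
        _ ≤ lam * (m * Real.log 2) := mul_le_mul_of_nonneg_left e5 hlam0
        _ = _ := by ring
    have := le_of_mul_le_mul_right this hl2
    exact_mod_cast this
  · have : (m : ℝ) * (η * Real.log 2) ≤ (lam * M : ℝ) * (η * Real.log 2) := by
      calc (m : ℝ) * (η * Real.log 2) = η * (m * Real.log 2) := by ring
        _ ≤ η * (2 * Real.log N) := mul_le_mul_of_nonneg_left e4 hη.le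
        _ = 2 * (η * Real.log N) := by ring
        _ ≤ 2 * (M * Real.log b) := by linarith
        _ ≤ 2 * (M * (b * Real.log 2)) := by
            have := mul_le_mul_of_nonneg_left hlb' hM0
            linarith
        _ = (2 * b) * (M * Real.log 2) := by ring
        _ ≤ (lam * η) * (M * Real.log 2) := mul_le_mul_of_nonneg_right hlamη (by positivity)
        _ = _ := by ring
    have := le_of_mul_le_mul_right this (by positivity)
    exact_mod_cast this

/-- For almost all moduli `c₀ + k`, `k` with missing digits: in EVERY residue class almost all integers up to `N` have `R`. -/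
theorem moduli {b : ℕ} (hb : 2 ≤ b) (η : ℝ) (hη : 0 < η) (R : ℕ → ℤ → Prop)
    (HR : ∀ lam : ℕ, 1 ≤ lam → Alm (PBil b 2 lam) R) (A : ℕ) :
    ∃ N₀ : ℕ, ∀ N : ℕ, N₀ ≤ N → ∀ (M c₀ : ℕ) (𝒟 : ℕ → Finset ℕ), DS b 𝒟 →
      (N : ℝ) ^ η ≤ (b : ℝ) ^ M → (b : ℝ) ^ M ≤ (N : ℝ) ^ (1 - η) → (c₀ : ℝ) ≤ (b : ℝ) ^ M * Real.log N ^ A →
      ∀ X : Finset ℕ, X ⊆ Dg b 𝒟 M →
        (∀ k ∈ X, 1 ≤ c₀ + k → ∃ a : ℕ, (N : ℝ) / ((c₀ + k : ℕ) * Real.log N ^ A) < ((badc R N (c₀ + k) a).card : ℝ)) →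
        (X.card : ℝ) ≤ (Dg b 𝒟 M).card / Real.log N ^ A := by
  classical
  obtain ⟨lam, hlam⟩ : ∃ lam : ℕ, lam = ⌈2 * b / η⌉₊ + 1 := ⟨_, rfl⟩
  have hlam1 : 1 ≤ lam := by omega
  have hlamη : 2 * b / η ≤ lam := by
    rw [hlam]
    push_cast
    exact (Nat.le_ceil _).trans (by linarith)
  obtain ⟨E, hE⟩ : ∃ E : ℕ, E = (A + 1) * b := ⟨_, rfl⟩
  obtain ⟨D, hD⟩ : ∃ D : ℕ, D = 2 * A + E + 2 := ⟨_, rfl⟩
  obtain ⟨N₁, h1⟩ := core hb lam R (HR lam hlam1) D
  obtain ⟨N₂, h2⟩ := log_ev 8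
  obtain ⟨N₃, h3⟩ : ∃ N₃ : ℕ, ∀ N : ℕ, N₃ ≤ N → 2 * Real.log N ^ E ≤ N ∧ (b : ℝ) * Real.log N ^ E ≤ (N : ℝ) ^ η := by
    have e1 : ∀ᶠ N : ℕ in atTop, 2 * Real.log N ^ E ≤ N := by
      have h := (isLittleO_log_rpow_rpow_atTop (E : ℝ) (show (0 : ℝ) < 1 by norm_num)).bound
        (show (0 : ℝ) < 1 / 2 by norm_num)
      filter_upwards [tendsto_natCast_atTop_atTop.eventually h, eventually_ge_atTop 3] with N hN h3
      have hN0 : (1 : ℝ) ≤ N := by exact_mod_cast (by omega : 1 ≤ N)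
      rw [Real.rpow_natCast, Real.rpow_one, Real.norm_of_nonneg (pow_nonneg (Real.log_nonneg hN0) _),
        Real.norm_of_nonneg (by linarith)] at hN
      linarith
    have e2 : ∀ᶠ N : ℕ in atTop, (b : ℝ) * Real.log N ^ E ≤ (N : ℝ) ^ η := by
      have h := (isLittleO_log_rpow_rpow_atTop (E : ℝ) hη).bound
        (show (0 : ℝ) < 1 / (b : ℝ) by positivity)
      filter_upwards [tendsto_natCast_atTop_atTop.eventually h, eventually_ge_atTop 3] with N hN h3
      have hN0 : (1 : ℝ) ≤ N := by exact_mod_cast (by omega : 1 ≤ N)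
      rw [Real.rpow_natCast, Real.norm_of_nonneg (pow_nonneg (Real.log_nonneg hN0) _),
        Real.norm_of_nonneg (by positivity), div_mul_eq_mul_div, one_mul, le_div_iff₀ (by positivity)] at hN
      linarith [mul_comm (Real.log N ^ E) (b : ℝ)]
    obtain ⟨N₃, hN₃⟩ := eventually_atTop.1 (e1.and e2)
    exact ⟨N₃, hN₃⟩
  refine ⟨N₁ + N₂ + N₃ + 3, fun N hN M c₀ 𝒟 hDS hMlo hMhi hc₀ X hX hbad => ?_⟩
  have hL8 := h2 N (by omega)
  obtain ⟨h3a, h3b⟩ := h3 N (by omega)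
  have hcore := h1 N (by omega)
  obtain ⟨L, hL⟩ : ∃ L, L = Real.log (N : ℝ) := ⟨_, rfl⟩
  rw [← hL] at hL8 h3a h3b hc₀ hcore hbad ⊢
  have hL1 : 1 ≤ L := by linarith
  have hL0 : 0 < L := by linarith
  have hNr : (3 : ℝ) ≤ N := by exact_mod_cast (by omega : 3 ≤ N)
  have hN0 : (0 : ℝ) < N := by linarith
  have hN1 : (1 : ℝ) ≤ N := by linarith
  have hb2 : (2 : ℝ) ≤ b := by exact_mod_cast hb
  have hb0 : (0 : ℝ) < b := by linarith
  obtain ⟨T, hT⟩ : ∃ T, T = L ^ A := ⟨_, rfl⟩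
  have hT1 : 1 ≤ T := by rw [hT]; exact one_le_pow₀ hL1
  have hT0 : 0 < T := by linarith
  obtain ⟨B, hB⟩ : ∃ B, B = (b : ℝ) ^ M := ⟨_, rfl⟩
  have hB1 : 1 ≤ B := by rw [hB]; exact one_le_pow₀ (by linarith)
  have hB0 : 0 < B := by linarith
  -- the number of the top digits
  obtain ⟨n, hn1, hn2, hn3⟩ := exists_m (2 * T) (by linarith)
  have hbn : (b : ℝ) ^ n ≤ L ^ E := by
    have e1 : (b : ℝ) ^ n ≤ (2 ^ b : ℝ) ^ n := by
      apply pow_le_pow_left₀ hb0.le
      exact_mod_cast Nat.lt_two_pow_self.le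
    calc (b : ℝ) ^ n ≤ (2 ^ b : ℝ) ^ n := e1
      _ = (2 ^ n : ℝ) ^ b := by rw [← pow_mul, ← pow_mul, mul_comm]
      _ ≤ (L ^ (A + 1)) ^ b := by
          apply pow_le_pow_left₀ (by positivity)
          calc (2 : ℝ) ^ n ≤ 2 * (2 * T) := hn3
            _ ≤ T * L := by nlinarith
            _ = L ^ (A + 1) := by rw [hT, pow_succ]
      _ = L ^ E := by rw [← pow_mul, hE]
  have hbn1 : (1 : ℝ) ≤ (b : ℝ) ^ n := one_le_pow₀ (by linarith)
  have hbn0 : (0 : ℝ) < (b : ℝ) ^ n := by positivity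
  rw [← hB] at hMlo hMhi hc₀
  have hnM : n ≤ M := by
    by_contra hcon
    push Not at hcon
    have e1 : B ≤ (b : ℝ) ^ n := by rw [hB]; exact pow_le_pow_right₀ (by linarith) hcon.le
    have e2 : (N : ℝ) ^ η ≤ L ^ E := hMlo.trans (e1.trans hbn)
    have e3 : 0 < L ^ E := by positivity
    nlinarith
  obtain ⟨j, rfl⟩ : ∃ j, M = j + n := ⟨M - n, by omega⟩
  have hBN : B ≤ N := by
    refine hMhi.trans ?_
    calc (N : ℝ) ^ (1 - η) ≤ (N : ℝ) ^ (1 : ℝ) := Real.rpow_le_rpow_of_exponent_le hN1 (by linarith)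
      _ = N := Real.rpow_one _
  -- the cofactors
  obtain ⟨Y, hY⟩ : ∃ Y, Y = N * (b : ℝ) ^ n / B := ⟨_, rfl⟩
  have hNB : 1 ≤ (N : ℝ) / B := by rw [le_div_iff₀ hB0]; linarith
  have hYge : (N : ℝ) / B ≤ Y := by
    rw [hY, div_le_div_iff_of_pos_right hB0]
    nlinarith
  have hY1 : 1 ≤ Y := hNB.trans hYge
  obtain ⟨m, hm1, hm2, hm3⟩ := exists_m Y hY1
  have hYN : Y ≤ N * L ^ E := by
    rw [hY, div_le_iff₀ hB0]
    calc (N : ℝ) * (b : ℝ) ^ n ≤ N * L ^ E := mul_le_mul_of_nonneg_left hbn hN0.le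
      _ = N * L ^ E * 1 := (mul_one _).symm
      _ ≤ N * L ^ E * B := mul_le_mul_of_nonneg_left hB1 (by positivity)
  obtain ⟨len1, len2⟩ := lens hb η hη lam hlamη (by omega : 2 ≤ N) (M := j + n) (m := m) (by rw [← hB]; exact hMlo)
    (by rw [← hB]; exact hMhi) (by rw [← hB]; linarith) (by nlinarith)
  have hLD : 1 ≤ L ^ D := one_le_pow₀ hL1
  have hLD0 : 0 < L ^ D := by linarith
  have hLDge : 4 * T * T * (b : ℝ) ^ n ≤ L ^ D := by
    calc 4 * T * T * (b : ℝ) ^ n ≤ 4 * T * T * L ^ E := mul_le_mul_of_nonneg_left hbn (by positivity)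
      _ ≤ L ^ 2 * T * T * L ^ E := by
          have : 4 ≤ L ^ 2 := by nlinarith
          have h5 : 4 * (T * T * L ^ E) ≤ L ^ 2 * (T * T * L ^ E) := mul_le_mul_of_nonneg_right this (by positivity)
          linarith
      _ = L ^ D := by
          rw [hT, hD]
          ring
  -- the moduli that are not small
  obtain ⟨X₁, hX₁⟩ : ∃ X₁ : Finset ℕ, X₁ = X.filter (fun k => b ^ j ≤ k) := ⟨_, rfl⟩
  have key : (X₁.card : ℝ) ≤ (Dg b 𝒟 (j + n)).card / L ^ D := by
    apply hcore (j + n) m 𝒟 1 c₀ hDS len1 len2 (by rw [abs_one]; exact hLD)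
    · rw [abs_one, one_mul, ← hB]
      have e1 : (N : ℝ) / L ^ D ≤ N := div_le_self hN0.le hLD
      have e2 : (N : ℝ) ≤ B * 2 ^ m := by
        have : (N : ℝ) / B ≤ 2 ^ m := by linarith
        rw [div_le_iff₀ hB0] at this
        linarith [mul_comm ((2 : ℝ) ^ m) B]
      linarith
    · rw [hX₁]; exact (filter_subset _ _).trans hX
    · intro k hk
      rw [hX₁, mem_filter] at hk
      have hbj1 : 1 ≤ b ^ j := Nat.one_le_pow _ _ (by omega)
      obtain ⟨q, hq⟩ : ∃ q : ℕ, q = c₀ + k := ⟨_, rfl⟩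
      have hq1 : 1 ≤ q := by omega
      obtain ⟨a, ha⟩ := hbad k hk.1 (by omega)
      rw [← hq] at ha
      refine ⟨((a % q : ℕ) : ℝ), ?_⟩
      have hkB : (k : ℝ) ≤ B := by
        have h5 := (mem_filter.1 (hX hk.1)).1
        rw [mem_range] at h5
        rw [hB]
        exact_mod_cast h5.le
      have hkb : B / (b : ℝ) ^ n ≤ k := by
        rw [div_le_iff₀ hbn0, hB, pow_add]
        apply mul_le_mul_of_nonneg_right _ hbn0.le
        exact_mod_cast hk.2
      have hkq : (k : ℝ) ≤ q := by rw [hq]; push_cast; linarith [Nat.cast_nonneg (α := ℝ) c₀]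
      have hq0 : (0 : ℝ) < q := by exact_mod_cast hq1
      have hqB : (q : ℝ) ≤ 2 * B * T := by
        rw [hq]
        push_cast
        rw [← hT] at hc₀
        nlinarith
      -- the number of the bad cofactors
      have hcard : ((badc R N q a).card : ℝ) ≤ ((bad R D N m (1 * (k + c₀)) ((a % q : ℕ) : ℝ)).card : ℝ) := by
        apply Nat.cast_le.2
        apply card_le_card_of_injOn (fun s => s / q)
        · intro s hs
          have hs' := mem_filter.1 (mem_coe.1 hs)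
          have hs1 := mem_Icc.1 hs'.1
          have hmod : s % q = a % q := hs'.2.1
          have hdiv : q * (s / q) + s % q = s := Nat.div_add_mod s q
          have hdivr : (q : ℝ) * ((s / q : ℕ) : ℝ) + ((a % q : ℕ) : ℝ) = s := by
            rw [← hmod]
            exact_mod_cast hdiv
          have hval : (1 * ((k : ℝ) + c₀)) * ((s / q : ℕ) : ℝ) + ((a % q : ℕ) : ℝ) = s := by
            rw [← hdivr, hq]
            push_cast
            ring
          apply mem_coe.2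
          unfold bad
          rw [mem_filter, mem_range]
          refine ⟨?_, ?_, s, ?_, ?_⟩
          · have e1 : ((s / q : ℕ) : ℝ) ≤ Y := by
              have e2 : (q : ℝ) * ((s / q : ℕ) : ℝ) ≤ N := by
                have e3 : (s : ℝ) ≤ N := by exact_mod_cast hs1.2
                have e4 : (0 : ℝ) ≤ ((a % q : ℕ) : ℝ) := Nat.cast_nonneg _
                linarith
              have e5 : B / (b : ℝ) ^ n ≤ q := hkb.trans hkq
              have e6 : B / (b : ℝ) ^ n * ((s / q : ℕ) : ℝ) ≤ N :=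
                (mul_le_mul_of_nonneg_right e5 (Nat.cast_nonneg _)).trans e2
              rw [hY, le_div_iff₀ hB0]
              rw [div_mul_eq_mul_div, div_le_iff₀ hbn0] at e6
              linarith [mul_comm B ((s / q : ℕ) : ℝ)]
            have e2 : ((s / q : ℕ) : ℝ) < ((2 ^ m : ℕ) : ℝ) := by push_cast; linarith
            exact_mod_cast e2
          · rw [hval, abs_of_nonneg (Nat.cast_nonneg _)]
            exact_mod_cast hs1.2
          · rw [hval]
            push_cast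
            rw [sub_self, abs_zero]
            rw [← hL]
            exact hLD0.le
          · exact_mod_cast hs'.2.2
        · intro s hs t ht hst
          have hs' := (mem_filter.1 (mem_coe.1 hs)).2.1
          have ht' := (mem_filter.1 (mem_coe.1 ht)).2.1
          have h5 : s % q = t % q := hs'.trans ht'.symm
          have h6 := Nat.div_add_mod s q
          have h7 := Nat.div_add_mod t q
          have h8 : s / q = t / q := hst
          rw [← h6, ← h7, h5, h8]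
      refine le_trans ?_ (ha.le.trans hcard)
      -- the sizes
      rw [← hT]
      rw [div_le_div_iff₀ hLD0 (by positivity)]
      have e1 : (2 : ℝ) ^ m * B ≤ 2 * (N * (b : ℝ) ^ n) := by
        have : (2 : ℝ) ^ m ≤ 2 * (N * (b : ℝ) ^ n / B) := by rw [← hY]; exact hm3
        calc (2 : ℝ) ^ m * B ≤ 2 * (N * (b : ℝ) ^ n / B) * B := mul_le_mul_of_nonneg_right this hB0.le
          _ = 2 * (N * (b : ℝ) ^ n) := by field_simp
      calc (2 : ℝ) ^ m * (q * T) ≤ (2 : ℝ) ^ m * ((2 * B * T) * T) := by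
            apply mul_le_mul_of_nonneg_left _ (by positivity)
            exact mul_le_mul_of_nonneg_right hqB hT0.le
        _ = ((2 : ℝ) ^ m * B) * (2 * T * T) := by ring
        _ ≤ (2 * (N * (b : ℝ) ^ n)) * (2 * T * T) := mul_le_mul_of_nonneg_right e1 (by positivity)
        _ = N * (4 * T * T * (b : ℝ) ^ n) := by ring
        _ ≤ N * L ^ D := mul_le_mul_of_nonneg_left hLDge hN0.le
  have hsmall := small_le hb hDS j n
  have hXle : (X.card : ℝ) ≤ X₁.card + (((Dg b 𝒟 (j + n)).filter (fun k => k < b ^ j)).card : ℝ) := by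
    have e1 : X ⊆ X₁ ∪ (Dg b 𝒟 (j + n)).filter (fun k => k < b ^ j) := by
      intro k hk
      rw [mem_union, hX₁, mem_filter, mem_filter]
      rcases lt_or_ge k (b ^ j) with h5 | h5
      · exact Or.inr ⟨hX hk, h5⟩
      · exact Or.inl ⟨hk, h5⟩
    exact_mod_cast (card_le_card e1).trans (card_union_le _ _)
  have hD0 : (0 : ℝ) ≤ (Dg b 𝒟 (j + n)).card := Nat.cast_nonneg _
  have f1 : ((Dg b 𝒟 (j + n)).card : ℝ) / L ^ D ≤ (Dg b 𝒟 (j + n)).card / (2 * T) := by
    apply div_le_div_of_nonneg_left hD0 (by positivity)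
    have e1 : 2 * T ≤ 4 * T * T * (b : ℝ) ^ n := by
      calc 2 * T = 2 * T * 1 * 1 := by ring
        _ ≤ 4 * T * T * (b : ℝ) ^ n := by
          apply mul_le_mul _ hbn1 (by norm_num) (by positivity)
          exact mul_le_mul (by linarith) hT1 (by norm_num) (by positivity)
    exact e1.trans hLDge
  have f2 : ((Dg b 𝒟 (j + n)).card : ℝ) / 2 ^ n ≤ (Dg b 𝒟 (j + n)).card / (2 * T) :=
    div_le_div_of_nonneg_left hD0 (by positivity) hn2.le
  rw [← hT]
  calc (X.card : ℝ) ≤ (Dg b 𝒟 (j + n)).card / (2 * T) + (Dg b 𝒟 (j + n)).card / (2 * T) := by linarith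
    _ = (Dg b 𝒟 (j + n)).card / T := by field_simp; ring

end Pool.Agent.X275.MD
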