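import Pool.Agent.X31.S3
import Pool.Agent.X31.S4

set_option autoImplicit false

/-! # Properties of all small multiples of the members of families of small energy -/

namespace Pool.Agent.X275.MD

open Finset Filter Topology
open Pool.Agent.X31 (FamP FamO)
open Pool.Agent.TH935.GF (En)

lemma En_mul (h : ℕ) {ι : Type} [Fintype ι] (v : ι → ℤ) (m : ℕ) (hm : 1 ≤ m) :
    En h (fun i => (m : ℤ) * v i) = En h v := by
  unfold Pool.Agent.TH935.GF.En
  apply Nat.card_congr
  apply Equiv.subtypeEquivRight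
  intro q
  rw [← mul_sum, ← mul_sum]
  constructor
  · intro h1
    exact mul_left_cancel₀ (by exact_mod_cast (by omega : m ≠ 0)) h1
  · intro h1
    rw [h1]

/-- If `Q` holds for almost all members of families of small energy, then for almost all members `s` it holds for all even
multiples `m s`, `m ≤ log ^ B₁ N`. -/
theorem famO_mult (h : ℕ) (Q : ℕ → Prop) (HQ : FamP h Q) (B₁ : ℕ) :
    FamO h (fun N s => ∀ m : ℕ, 1 ≤ m → (m : ℝ) ≤ Real.log N ^ B₁ → 0 < s → Even ((m : ℤ) * s) → Q (m * s.toNat)) := by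
  classical
  intro B C U
  obtain ⟨N₀, h0⟩ := Pool.Agent.TH935.GF.transfer h B (C + B₁) (U + B₁) Q HQ
  refine ⟨N₀ + 3, fun N hN ι _ v hv hE S hS => ?_⟩
  have hL1 : 1 ≤ Real.log N := Pool.Agent.TH935.TF.one_le_log (by omega)
  have hN0 : (0 : ℝ) < N := by exact_mod_cast (by omega : 0 < N)
  obtain ⟨L, hL⟩ : ∃ L, L = Real.log (N : ℝ) := ⟨_, rfl⟩
  have hS' : ∀ i ∈ S, ∃ m : ℕ, 1 ≤ m ∧ (m : ℝ) ≤ Real.log N ^ B₁ ∧ 0 < v i ∧ Even ((m : ℤ) * v i) ∧
      ¬ Q (m * (v i).toNat) := by
    intro i hi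
    have := hS i hi
    push Not at this
    exact this
  choose! m hm using hS'
  obtain ⟨K, hK⟩ : ∃ K : ℕ, K = ⌊Real.log N ^ B₁⌋₊ := ⟨_, rfl⟩
  have hKL : (K : ℝ) ≤ L ^ B₁ := by rw [hK, hL]; exact Nat.floor_le (by positivity)
  have hSu : S = (Icc 1 K).biUnion (fun k => S.filter (fun i => m i = k)) := by
    ext i
    rw [mem_biUnion]
    constructor
    · intro hi
      refine ⟨m i, mem_Icc.2 ⟨(hm i hi).1, ?_⟩, mem_filter.2 ⟨hi, rfl⟩⟩
      rw [hK]
      exact Nat.le_floor (hm i hi).2.1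
    · rintro ⟨k, _, hi⟩
      exact (mem_filter.1 hi).1
  have hone : ∀ k ∈ Icc 1 K, ((S.filter (fun i => m i = k)).card : ℝ) ≤ Fintype.card ι / L ^ (U + B₁) := by
    intro k hk
    rw [mem_Icc] at hk
    have hk0 : (1 : ℝ) ≤ k := by exact_mod_cast hk.1
    have hkL : (k : ℝ) ≤ L ^ B₁ := le_trans (by exact_mod_cast hk.2) hKL
    have hkN : N ≤ k * N := Nat.le_mul_of_pos_left _ hk.1
    have hlog : L ≤ Real.log ((k * N : ℕ) : ℝ) := by
      rw [hL]
      apply Real.log_le_log hN0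
      exact_mod_cast hkN
    have hL0 : 0 < L := by rw [hL]; linarith
    have h1 := h0 (k * N) (by omega) ι (fun i => (k : ℤ) * v i) (by
      intro i
      have h2 := (abs_le.1 (hv i)).2
      push_cast
      calc (k : ℤ) * v i ≤ k * (B * N) := mul_le_mul_of_nonneg_left h2 (by positivity)
        _ = B * (k * N) := by ring) (by
      rw [En_mul h v k hk.1]
      push_cast
      calc (En h v : ℝ) * ((k : ℝ) * N) = (En h v * N) * k := by ring
        _ ≤ (Real.log N ^ C * (Fintype.card ι : ℝ) ^ (2 * h)) * L ^ B₁ :=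
            mul_le_mul hE hkL (by positivity) (by positivity)
        _ = L ^ (C + B₁) * (Fintype.card ι : ℝ) ^ (2 * h) := by rw [← hL, pow_add]; ring
        _ ≤ Real.log ((k : ℝ) * N) ^ (C + B₁) * (Fintype.card ι : ℝ) ^ (2 * h) := by
            apply mul_le_mul_of_nonneg_right _ (by positivity)
            apply pow_le_pow_left₀ hL0.le
            push_cast at hlog
            exact hlog) (S.filter (fun i => m i = k)) (by
      intro i hi
      rw [mem_filter] at hi
      obtain ⟨a1, a2, a3, a4, a5⟩ := hm i hi.1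
      rw [hi.2] at a4 a5
      refine ⟨mul_pos (by exact_mod_cast hk.1) a3, a4, ?_⟩
      have e : ((k : ℤ) * v i).toNat = k * (v i).toNat := by
        obtain ⟨w, hw⟩ : ∃ w : ℕ, v i = w := ⟨(v i).toNat, (Int.toNat_of_nonneg a3.le).symm⟩
        rw [hw, Int.toNat_natCast]
        exact_mod_cast Int.toNat_natCast (k * w)
      rw [e]
      exact a5)
    refine h1.trans ?_
    apply div_le_div_of_nonneg_left (Nat.cast_nonneg _) (by positivity)
    exact pow_le_pow_left₀ hL0.le hlog _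
  have hsum : (S.card : ℝ) ≤ ∑ k ∈ Icc 1 K, ((S.filter (fun i => m i = k)).card : ℝ) := by
    have : S.card ≤ ∑ k ∈ Icc 1 K, (S.filter (fun i => m i = k)).card := by
      conv_lhs => rw [hSu]
      exact card_biUnion_le
    exact_mod_cast this
  have hL0 : 0 < L := by rw [hL]; linarith
  calc (S.card : ℝ) ≤ ∑ k ∈ Icc 1 K, ((S.filter (fun i => m i = k)).card : ℝ) := hsum
    _ ≤ ∑ _k ∈ Icc 1 K, (Fintype.card ι / L ^ (U + B₁) : ℝ) := sum_le_sum hone
    _ = K * (Fintype.card ι / L ^ (U + B₁)) := by rw [sum_const, Nat.card_Icc, nsmul_eq_mul]; simp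
    _ ≤ L ^ B₁ * (Fintype.card ι / L ^ (U + B₁)) := mul_le_mul_of_nonneg_right hKL (by positivity)
    _ = Fintype.card ι / L ^ U := by rw [pow_add]; field_simp
    _ = _ := by rw [hL]

end Pool.Agent.X275.MD
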