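import Pool.Agent.X275.MD.MD3
import Pool.Agent.W93.GB4
import Pool.Agent.W93.GB1

set_option autoImplicit false

/-! # Goldbach representations of all even multiples `n ≤ q (log q) ^ B` of `q` -/

namespace Pool.Agent.X275.MD

open Finset Filter Topology
open Pool.Agent.X31 (FamP FamO)
open Pool.Agent.H560R3.GB (g HL)

/-- The even multiples `n` of `q` with `x / 2 < n ≤ x` and `g n < δ n / (log n)²`, as in the problem. -/
def few (δ x : ℝ) (q : ℕ) : Set ℕ :=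
  {n : ℕ | x / 2 < n ∧ (n : ℝ) ≤ x ∧ 2 ∣ n ∧ q ∣ n ∧ (g n : ℝ) < δ * (n / Real.log n ^ 2)}

/-- (1) EVERY even multiple `n ≤ q (log q) ^ B` of `q` is a sum of two distinct primes and satisfies
`|g n - HL n| ≤ ε HL n`; (2) for EVERY real `x ≤ q (log q) ^ B`, all even multiples `n` of `q` in `(x / 2, x]` satisfy
`g n ≥ n / (2 (log n)²)`: the assertion of the problem for `q` and `x`, with `δ = 1 / 2`, without exceptions. -/
def Holds (ε : ℝ) (B q : ℕ) : Prop :=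
  (∀ n : ℕ, 0 < n → (n : ℝ) ≤ q * Real.log q ^ B → 2 ∣ n → q ∣ n →
    |(g n : ℝ) - HL n| ≤ ε * HL n ∧ ∃ p p' : ℕ, p.Prime ∧ p'.Prime ∧ p ≠ p' ∧ p + p' = n) ∧
  ∀ x : ℝ, x ≤ q * Real.log q ^ B → few (1 / 2) x q = ∅

lemma good_ge {ε : ℝ} (hε : ε ≤ 1 / 2) {n : ℕ} (h : Pool.Agent.W93.GB.Good ε n) :
    (1 / 2 : ℝ) * (n / Real.log n ^ 2) ≤ g n := by
  have h7 := h.1
  have h8 := Pool.Agent.W93.GB.one_le_sing n
  have h11 : (0 : ℝ) ≤ n / Real.log n ^ 2 := by positivity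
  have h10 : HL n = Pool.Agent.H560R3.GB.sing n * (n / Real.log n ^ 2) := rfl
  have h9 : (n : ℝ) / Real.log n ^ 2 ≤ HL n := by
    rw [h10]
    nlinarith
  have h12 : 0 ≤ HL n := h11.trans h9
  rw [abs_le] at h7
  nlinarith [h7.1]

theorem famO_holds (h : ℕ) (hh : 1 ≤ h) (ε : ℝ) (hε : 0 < ε) (B : ℕ) :
    FamO h (fun N s => 0 < s → s ≤ 2 * (N : ℤ) → Holds ε B s.toNat) := by
  classical
  obtain ⟨ε', hε'⟩ : ∃ ε', ε' = min ε (1 / 2) := ⟨_, rfl⟩
  have hε0 : 0 < ε' := by rw [hε']; exact lt_min hε (by norm_num)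
  have hεle : ε' ≤ ε := by rw [hε']; exact min_le_left _ _
  have hεh : ε' ≤ 1 / 2 := by rw [hε']; exact min_le_right _ _
  have key := famO_mult h (Pool.Agent.W93.GB.Good ε') (fun B C U => Pool.Agent.W93.GB.fam h B C U hh ε' hε0) (B + 1)
  intro B₀ C U
  obtain ⟨N₀, h0⟩ := key B₀ C U
  obtain ⟨N₁, h1⟩ : ∃ N₁ : ℕ, ∀ N : ℕ, N₁ ≤ N → (2 : ℝ) ^ B ≤ Real.log N := by
    have h := (Real.tendsto_log_atTop.comp tendsto_natCast_atTop_atTop).eventually_ge_atTop ((2 : ℝ) ^ B)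
    exact eventually_atTop.1 h
  refine ⟨N₀ + N₁ + 3, fun N hN ι _ v hv hE S hS => h0 N (by omega) ι v hv hE S fun i hi hcon => ?_⟩
  apply hS i hi
  intro hs0 hs2
  have hL2 := h1 N (by omega)
  obtain ⟨q, hq⟩ : ∃ q : ℕ, v i = q := ⟨(v i).toNat, (Int.toNat_of_nonneg hs0.le).symm⟩
  rw [hq] at hcon hs0 hs2 ⊢
  rw [Int.toNat_natCast] at hcon ⊢
  have hq0 : 0 < q := by exact_mod_cast hs0
  have hq0r : (0 : ℝ) < q := by exact_mod_cast hq0
  have hN0 : (0 : ℝ) < N := by exact_mod_cast (by omega : 0 < N)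
  have hqN : (q : ℝ) ≤ 2 * N := by exact_mod_cast hs2
  have hlogq : Real.log q ≤ 2 * Real.log N := by
    have e1 : Real.log q ≤ Real.log (2 * N) := Real.log_le_log hq0r hqN
    rw [Real.log_mul (by norm_num) hN0.ne'] at e1
    have e2 : Real.log 2 ≤ Real.log N := Real.log_le_log (by norm_num) (by exact_mod_cast (by omega : 2 ≤ N))
    linarith
  have hL1 : 1 ≤ Real.log N := Pool.Agent.TH935.TF.one_le_log (by omega)
  have hpow : Real.log q ^ B ≤ Real.log N ^ (B + 1) := by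
    have hlq0 : 0 ≤ Real.log q := Real.log_nonneg (by exact_mod_cast hq0)
    calc Real.log q ^ B ≤ (2 * Real.log N) ^ B := pow_le_pow_left₀ hlq0 hlogq _
      _ = 2 ^ B * Real.log N ^ B := by rw [mul_pow]
      _ ≤ Real.log N * Real.log N ^ B := mul_le_mul_of_nonneg_right hL2 (by positivity)
      _ = Real.log N ^ (B + 1) := by rw [pow_succ]; ring
  have main : ∀ n : ℕ, 0 < n → (n : ℝ) ≤ q * Real.log q ^ B → 2 ∣ n → q ∣ n → Pool.Agent.W93.GB.Good ε' n := by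
    intro n hn0 hn h2 hqn
    obtain ⟨m, rfl⟩ := hqn
    have hm0 : 1 ≤ m := Nat.pos_of_ne_zero fun h => by rw [h] at hn0; simp at hn0
    push_cast at hn
    have e1 : (m : ℝ) ≤ Real.log q ^ B := le_of_mul_le_mul_left hn hq0r
    have e2 := hcon m hm0 (e1.trans hpow) (by exact_mod_cast hq0) (by
      have : Even (m * q) := by rw [mul_comm]; exact even_iff_two_dvd.2 h2
      exact_mod_cast this)
    rwa [mul_comm q m]
  constructor
  · intro n hn0 hn h2 hqn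
    obtain ⟨a1, a2⟩ := main n hn0 hn h2 hqn
    refine ⟨a1.trans (mul_le_mul_of_nonneg_right hεle ?_), a2⟩
    have h8 := Pool.Agent.W93.GB.one_le_sing n
    unfold Pool.Agent.H560R3.GB.HL
    positivity
  · intro x hx
    rw [Set.eq_empty_iff_forall_notMem]
    rintro n ⟨b1, b2, b3, b4, b5⟩
    rcases Nat.eq_zero_or_pos n with hn | hn
    · rw [hn] at b5
      have h0 : (0 : ℝ) ≤ (g 0 : ℝ) := Nat.cast_nonneg _
      rw [Nat.cast_zero, zero_div, mul_zero] at b5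
      linarith
    · have := good_ge hεh (main n hn (b2.trans hx) b3 b4)
      linarith

lemma log_pow_le (D : ℕ) : ∃ N₀ : ℕ, ∀ N : ℕ, N₀ ≤ N → Real.log N ^ D ≤ N :=
  eventually_atTop.1 (Pool.Agent.X31.CT.log_pow_le D)

end Pool.Agent.X275.MD
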