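import Pool.Agent.X275.MD.MD2

set_option autoImplicit false

/-! # Almost all moduli with missing digits: fractions `q y / g` with all shifts at once -/

namespace Pool.Agent.X275.MD

open Finset Filter Topology
open Pool.Agent.X31 (Sch PBil FamP FamO)
open Pool.Agent.X31.CT (Dg DS)

open Classical in
/-- the `y ≤ N / q` for which `q y / g + δ` is at most `N` in absolute value and close to an integer without `R` -/
noncomputable def badY (R : ℕ → ℤ → Prop) (D N q g : ℕ) (δ : ℝ) : Finset ℕ :=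
  (range (N / q + 1)).filter (fun y : ℕ => |(q : ℝ) / g * y + δ| ≤ N ∧
    ∃ s : ℤ, |(s : ℝ) - ((q : ℝ) / g * y + δ)| ≤ Real.log N ^ D ∧ ¬ R N s)

/-- For almost all moduli `q = c₀ + k`, `k` with missing digits, for ALL `g ≤ log ^ A N` and ALL `δ`: almost all `q y / g + δ` are
near integers with `R`. -/
theorem moduliG {b : ℕ} (hb : 2 ≤ b) (η : ℝ) (hη : 0 < η) (R : ℕ → ℤ → Prop)
    (HR : ∀ lam : ℕ, 1 ≤ lam → Alm (PBil b 2 lam) R) (A : ℕ) :
    ∃ N₀ : ℕ, ∀ N : ℕ, N₀ ≤ N → ∀ (M c₀ : ℕ) (𝒟 : ℕ → Finset ℕ), DS b 𝒟 →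
      (N : ℝ) ^ η ≤ (b : ℝ) ^ M → (b : ℝ) ^ M ≤ (N : ℝ) ^ (1 - η) → (c₀ : ℝ) ≤ (b : ℝ) ^ M * Real.log N ^ A →
      ∀ X : Finset ℕ, X ⊆ Dg b 𝒟 M →
        (∀ k ∈ X, 1 ≤ c₀ + k → ∃ (g : ℕ) (δ : ℝ), 1 ≤ g ∧ (g : ℝ) ≤ Real.log N ^ A ∧
          (N : ℝ) / ((c₀ + k : ℕ) * Real.log N ^ A) ≤ ((badY R A N (c₀ + k) g δ).card : ℝ)) →
        (X.card : ℝ) ≤ (Dg b 𝒟 M).card / Real.log N ^ A := by
  classical
  obtain ⟨lam, hlam⟩ : ∃ lam : ℕ, lam = ⌈2 * b / η⌉₊ + 1 := ⟨_, rfl⟩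
  have hlam1 : 1 ≤ lam := by omega
  have hlamη : 2 * b / η ≤ lam := by
    rw [hlam]
    push_cast
    exact (Nat.le_ceil _).trans (by linarith)
  obtain ⟨E, hE⟩ : ∃ E : ℕ, E = (A + 1) * b := ⟨_, rfl⟩
  obtain ⟨D, hD⟩ : ∃ D : ℕ, D = 3 * A + E + 3 := ⟨_, rfl⟩
  obtain ⟨N₁, h1⟩ := core hb lam R (HR lam hlam1) D
  obtain ⟨N₂, h2⟩ := log_ev 8
  obtain ⟨N₃, h3⟩ : ∃ N₃ : ℕ, ∀ N : ℕ, N₃ ≤ N → 2 * Real.log N ^ E ≤ N ∧ (b : ℝ) * Real.log N ^ E ≤ (N : ℝ) ^ η := by
    have e1 : ∀ᶠ N : ℕ in atTop, 2 * Real.log N ^ E ≤ N := by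
      have h := (isLittleO_log_rpow_rpow_atTop (E : ℝ) (show (0 : ℝ) < 1 by norm_num)).bound
        (show (0 : ℝ) < 1 / 2 by norm_num)
      filter_upwards [tendsto_natCast_atTop_atTop.eventually h, eventually_ge_atTop 3] with N hN h3
      have hN0 : (1 : ℝ) ≤ N := by exact_mod_cast (by omega : 1 ≤ N)
      rw [Real.rpow_natCast, Real.rpow_one, Real.norm_of_nonneg (pow_nonneg (Real.log_nonneg hN0) _),
        Real.norm_of_nonneg (by linarith)] at hN
      linarith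
    have e2 : ∀ᶠ N : ℕ in atTop, (b : ℝ) * Real.log N ^ E ≤ (N : ℝ) ^ η := by
      have h := (isLittleO_log_rpow_rpow_atTop (E : ℝ) hη).bound
        (show (0 : ℝ) < 1 / (b : ℝ) by positivity)
      filter_upwards [tendsto_natCast_atTop_atTop.eventually h, eventually_ge_atTop 3] with N hN h3
      have hN0 : (1 : ℝ) ≤ N := by exact_mod_cast (by omega : 1 ≤ N)
      rw [Real.rpow_natCast, Real.norm_of_nonneg (pow_nonneg (Real.log_nonneg hN0) _),
        Real.norm_of_nonneg (by positivity), div_mul_eq_mul_div, one_mul, le_div_iff₀ (by positivity)] at hN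
      linarith [mul_comm (Real.log N ^ E) (b : ℝ)]
    obtain ⟨N₃, hN₃⟩ := eventually_atTop.1 (e1.and e2)
    exact ⟨N₃, hN₃⟩
  refine ⟨N₁ + N₂ + N₃ + 3, fun N hN M c₀ 𝒟 hDS hMlo hMhi hc₀ X hX hbad => ?_⟩
  have hL8 := h2 N (by omega)
  obtain ⟨h3a, h3b⟩ := h3 N (by omega)
  have hcore := h1 N (by omega)
  obtain ⟨L, hL⟩ : ∃ L, L = Real.log (N : ℝ) := ⟨_, rfl⟩
  rw [← hL] at hL8 h3a h3b hc₀ hcore hbad ⊢
  have hL1 : 1 ≤ L := by linarith
  have hL0 : 0 < L := by linarith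
  have hNr : (3 : ℝ) ≤ N := by exact_mod_cast (by omega : 3 ≤ N)
  have hN0 : (0 : ℝ) < N := by linarith
  have hN1 : (1 : ℝ) ≤ N := by linarith
  have hb2 : (2 : ℝ) ≤ b := by exact_mod_cast hb
  have hb0 : (0 : ℝ) < b := by linarith
  obtain ⟨T, hT⟩ : ∃ T, T = L ^ A := ⟨_, rfl⟩
  have hT1 : 1 ≤ T := by rw [hT]; exact one_le_pow₀ hL1
  have hT0 : 0 < T := by linarith
  obtain ⟨B, hB⟩ : ∃ B, B = (b : ℝ) ^ M := ⟨_, rfl⟩
  have hB1 : 1 ≤ B := by rw [hB]; exact one_le_pow₀ (by linarith)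
  have hB0 : 0 < B := by linarith
  -- the number of the top digits
  obtain ⟨n, hn1, hn2, hn3⟩ := exists_m (2 * T) (by linarith)
  have hbn : (b : ℝ) ^ n ≤ L ^ E := by
    have e1 : (b : ℝ) ^ n ≤ (2 ^ b : ℝ) ^ n := by
      apply pow_le_pow_left₀ hb0.le
      exact_mod_cast Nat.lt_two_pow_self.le
    calc (b : ℝ) ^ n ≤ (2 ^ b : ℝ) ^ n := e1
      _ = (2 ^ n : ℝ) ^ b := by rw [← pow_mul, ← pow_mul, mul_comm]
      _ ≤ (L ^ (A + 1)) ^ b := by
          apply pow_le_pow_left₀ (by positivity)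
          calc (2 : ℝ) ^ n ≤ 2 * (2 * T) := hn3
            _ ≤ T * L := by nlinarith
            _ = L ^ (A + 1) := by rw [hT, pow_succ]
      _ = L ^ E := by rw [← pow_mul, hE]
  have hbn1 : (1 : ℝ) ≤ (b : ℝ) ^ n := one_le_pow₀ (by linarith)
  have hbn0 : (0 : ℝ) < (b : ℝ) ^ n := by positivity
  rw [← hB] at hMlo hMhi hc₀
  have hnM : n ≤ M := by
    by_contra hcon
    push Not at hcon
    have e1 : B ≤ (b : ℝ) ^ n := by rw [hB]; exact pow_le_pow_right₀ (by linarith) hcon.le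
    have e2 : (N : ℝ) ^ η ≤ L ^ E := hMlo.trans (e1.trans hbn)
    have e3 : 0 < L ^ E := by positivity
    nlinarith
  obtain ⟨j, rfl⟩ : ∃ j, M = j + n := ⟨M - n, by omega⟩
  have hBN : B ≤ N := by
    refine hMhi.trans ?_
    calc (N : ℝ) ^ (1 - η) ≤ (N : ℝ) ^ (1 : ℝ) := Real.rpow_le_rpow_of_exponent_le hN1 (by linarith)
      _ = N := Real.rpow_one _
  -- the cofactors
  obtain ⟨Y, hY⟩ : ∃ Y, Y = N * (b : ℝ) ^ n / B := ⟨_, rfl⟩
  have hNB : 1 ≤ (N : ℝ) / B := by rw [le_div_iff₀ hB0]; linarith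
  have hYge : (N : ℝ) / B ≤ Y := by
    rw [hY, div_le_div_iff_of_pos_right hB0]
    nlinarith
  have hY1 : 1 ≤ Y := hNB.trans hYge
  obtain ⟨m, hm1, hm2, hm3⟩ := exists_m Y hY1
  have hYN : Y ≤ N * L ^ E := by
    rw [hY, div_le_iff₀ hB0]
    calc (N : ℝ) * (b : ℝ) ^ n ≤ N * L ^ E := mul_le_mul_of_nonneg_left hbn hN0.le
      _ = N * L ^ E * 1 := (mul_one _).symm
      _ ≤ N * L ^ E * B := mul_le_mul_of_nonneg_left hB1 (by positivity)
  obtain ⟨len1, len2⟩ := lens hb η hη lam hlamη (by omega : 2 ≤ N) (M := j + n) (m := m) (by rw [← hB]; exact hMlo)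
    (by rw [← hB]; exact hMhi) (by rw [← hB]; linarith) (by nlinarith)
  have hLD : 1 ≤ L ^ D := one_le_pow₀ hL1
  have hLD0 : 0 < L ^ D := by linarith
  have hLDge : 4 * T * T * T * (b : ℝ) ^ n ≤ L ^ D := by
    calc 4 * T * T * T * (b : ℝ) ^ n ≤ 4 * T * T * T * L ^ E := mul_le_mul_of_nonneg_left hbn (by positivity)
      _ ≤ L ^ 3 * T * T * T * L ^ E := by
          have : 4 ≤ L ^ 3 := by nlinarith [pow_pos hL0 2]
          have h5 : 4 * (T * T * T * L ^ E) ≤ L ^ 3 * (T * T * T * L ^ E) := mul_le_mul_of_nonneg_right this (by positivity)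
          linarith
      _ = L ^ D := by
          rw [hT, hD]
          ring
  -- the moduli that are not small
  obtain ⟨X₁, hX₁⟩ : ∃ X₁ : Finset ℕ, X₁ = X.filter (fun k => b ^ j ≤ k) := ⟨_, rfl⟩
  have hbj1 : 1 ≤ b ^ j := Nat.one_le_pow _ _ (by omega)
  have hbad' : ∀ k ∈ X₁, ∃ (g : ℕ) (δ : ℝ), 1 ≤ g ∧ (g : ℝ) ≤ L ^ A ∧
      (N : ℝ) / ((c₀ + k : ℕ) * L ^ A) ≤ ((badY R A N (c₀ + k) g δ).card : ℝ) := by
    intro k hk
    rw [hX₁, mem_filter] at hk
    exact hbad k hk.1 (by omega)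
  choose! gf δf hgf using hbad'
  have key : ∀ g ∈ Icc 1 ⌊L ^ A⌋₊, ((X₁.filter (fun k => gf k = g)).card : ℝ) ≤ (Dg b 𝒟 (j + n)).card / L ^ D := by
    intro g hg
    rw [mem_Icc] at hg
    have hg0 : (0 : ℝ) < g := by exact_mod_cast hg.1
    have hg1 : (1 : ℝ) ≤ g := by exact_mod_cast hg.1
    have hgT : (g : ℝ) ≤ T := by
      rw [hT]
      exact (Nat.le_floor_iff (by positivity)).1 hg.2
    have hTD : T ≤ L ^ D := by
      rw [hT, hD]
      exact pow_le_pow_right₀ hL1 (by omega)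
    apply hcore (j + n) m 𝒟 (1 / g) c₀ hDS len1 len2
    · rw [abs_of_nonneg (by positivity)]
      exact (div_le_one hg0).2 hg1 |>.trans hLD
    · rw [abs_of_nonneg (by positivity), ← hB]
      have e2 : (N : ℝ) ≤ B * 2 ^ m := by
        have : (N : ℝ) / B ≤ 2 ^ m := by linarith
        rw [div_le_iff₀ hB0] at this
        linarith [mul_comm ((2 : ℝ) ^ m) B]
      have e3 : (N : ℝ) / L ^ D ≤ N / g := div_le_div_of_nonneg_left hN0.le hg0 (hgT.trans hTD)
      refine e3.trans ?_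
      rw [div_mul_eq_mul_div, one_mul]
      exact div_le_div_of_nonneg_right e2 hg0.le
    · rw [hX₁]; exact (filter_subset _ _).trans ((filter_subset _ _).trans hX)
    · intro k hk
      obtain ⟨hkX, hkg⟩ := mem_filter.1 hk
      obtain ⟨-, -, ha⟩ := hgf k hkX
      rw [hX₁, mem_filter] at hkX
      obtain ⟨q, hq⟩ : ∃ q : ℕ, q = c₀ + k := ⟨_, rfl⟩
      have hq1 : 1 ≤ q := by omega
      rw [← hq, hkg] at ha
      refine ⟨δf k, ?_⟩
      have hkB : (k : ℝ) ≤ B := by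
        have h5 := (mem_filter.1 (hX hkX.1)).1
        rw [mem_range] at h5
        rw [hB]
        exact_mod_cast h5.le
      have hkb : B / (b : ℝ) ^ n ≤ k := by
        rw [div_le_iff₀ hbn0, hB, pow_add]
        apply mul_le_mul_of_nonneg_right _ hbn0.le
        exact_mod_cast hkX.2
      have hkq : (k : ℝ) ≤ q := by rw [hq]; push_cast; linarith [Nat.cast_nonneg (α := ℝ) c₀]
      have hq0 : (0 : ℝ) < q := by exact_mod_cast hq1
      have hqB : (q : ℝ) ≤ 2 * B * T := by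
        rw [hq]
        push_cast
        rw [← hT] at hc₀
        nlinarith
      -- the number of the bad cofactors
      have hu : (1 / (g : ℝ)) * ((k : ℝ) + c₀) = (q : ℝ) / g := by
        rw [hq]
        push_cast
        ring
      rw [hu]
      have hcard : ((badY R A N q g (δf k)).card : ℝ) ≤ ((bad R D N m ((q : ℝ) / g) (δf k)).card : ℝ) := by
        apply Nat.cast_le.2
        apply card_le_card
        intro y hy
        unfold badY at hy
        unfold bad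
        rw [mem_filter, mem_range] at hy ⊢
        obtain ⟨hy1, hy2, s, hs1, hs2⟩ := hy
        refine ⟨?_, hy2, s, hs1.trans ?_, hs2⟩
        · have hyN : y * q ≤ N := (Nat.le_div_iff_mul_le hq1).1 (by omega)
          have e2 : (q : ℝ) * (y : ℝ) ≤ N := by
            rw [mul_comm]
            exact_mod_cast hyN
          have e1 : (y : ℝ) ≤ Y := by
            have e5 : B / (b : ℝ) ^ n ≤ q := hkb.trans hkq
            have e6 : B / (b : ℝ) ^ n * (y : ℝ) ≤ N :=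
              (mul_le_mul_of_nonneg_right e5 (Nat.cast_nonneg _)).trans e2
            rw [hY, le_div_iff₀ hB0]
            rw [div_mul_eq_mul_div, div_le_iff₀ hbn0] at e6
            linarith [mul_comm B (y : ℝ)]
          have e3 : (y : ℝ) < ((2 ^ m : ℕ) : ℝ) := by push_cast; linarith
          exact_mod_cast e3
        · rw [← hL, hD]
          exact pow_le_pow_right₀ hL1 (by omega)
      refine le_trans ?_ (ha.trans hcard)
      -- the sizes
      rw [← hT]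
      rw [div_le_div_iff₀ hLD0 (by positivity)]
      have e1 : (2 : ℝ) ^ m * B ≤ 2 * (N * (b : ℝ) ^ n) := by
        have : (2 : ℝ) ^ m ≤ 2 * (N * (b : ℝ) ^ n / B) := by rw [← hY]; exact hm3
        calc (2 : ℝ) ^ m * B ≤ 2 * (N * (b : ℝ) ^ n / B) * B := mul_le_mul_of_nonneg_right this hB0.le
          _ = 2 * (N * (b : ℝ) ^ n) := by field_simp
      have e4 : 4 * T * T * (b : ℝ) ^ n ≤ L ^ D := by
        refine le_trans ?_ hLDge
        have : 4 * T * T * (b : ℝ) ^ n * 1 ≤ 4 * T * T * (b : ℝ) ^ n * T :=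
          mul_le_mul_of_nonneg_left hT1 (by positivity)
        linarith
      calc (2 : ℝ) ^ m * (q * T) ≤ (2 : ℝ) ^ m * ((2 * B * T) * T) := by
            apply mul_le_mul_of_nonneg_left _ (by positivity)
            exact mul_le_mul_of_nonneg_right hqB hT0.le
        _ = ((2 : ℝ) ^ m * B) * (2 * T * T) := by ring
        _ ≤ (2 * (N * (b : ℝ) ^ n)) * (2 * T * T) := mul_le_mul_of_nonneg_right e1 (by positivity)
        _ = N * (4 * T * T * (b : ℝ) ^ n) := by ring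
        _ ≤ N * L ^ D := mul_le_mul_of_nonneg_left e4 hN0.le
  have hD0 : (0 : ℝ) ≤ (Dg b 𝒟 (j + n)).card := Nat.cast_nonneg _
  have hX₁c : (X₁.card : ℝ) ≤ (Dg b 𝒟 (j + n)).card / (2 * T) := by
    have e1 : X₁ ⊆ (Icc 1 ⌊L ^ A⌋₊).biUnion (fun g => X₁.filter (fun k => gf k = g)) := by
      intro k hk
      rw [mem_biUnion]
      refine ⟨gf k, mem_Icc.2 ⟨(hgf k hk).1, Nat.le_floor (hgf k hk).2.1⟩, mem_filter.2 ⟨hk, rfl⟩⟩
    have e2 : (X₁.card : ℝ) ≤ ∑ g ∈ Icc 1 ⌊L ^ A⌋₊, ((X₁.filter (fun k => gf k = g)).card : ℝ) := by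
      exact_mod_cast (card_le_card e1).trans card_biUnion_le
    refine e2.trans ((sum_le_sum key).trans ?_)
    rw [sum_const, Nat.card_Icc, Nat.add_sub_cancel, nsmul_eq_mul]
    have e3 : ((⌊L ^ A⌋₊ : ℕ) : ℝ) ≤ T := by
      rw [hT]
      exact Nat.floor_le (by positivity)
    have e4 : 2 * T * T ≤ L ^ D := by
      refine le_trans ?_ hLDge
      calc 2 * T * T = 2 * T * T * 1 * 1 := by ring
        _ ≤ 4 * T * T * T * (b : ℝ) ^ n := by
          apply mul_le_mul _ hbn1 (by norm_num) (by positivity)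
          apply mul_le_mul _ hT1 (by norm_num) (by positivity)
          nlinarith
    calc ((⌊L ^ A⌋₊ : ℕ) : ℝ) * ((Dg b 𝒟 (j + n)).card / L ^ D) ≤ T * ((Dg b 𝒟 (j + n)).card / L ^ D) :=
          mul_le_mul_of_nonneg_right e3 (by positivity)
      _ ≤ T * ((Dg b 𝒟 (j + n)).card / (2 * T * T)) := by
          apply mul_le_mul_of_nonneg_left _ hT0.le
          exact div_le_div_of_nonneg_left hD0 (by positivity) e4
      _ = (Dg b 𝒟 (j + n)).card / (2 * T) := by field_simp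
  have hsmall := small_le hb hDS j n
  have hXle : (X.card : ℝ) ≤ X₁.card + (((Dg b 𝒟 (j + n)).filter (fun k => k < b ^ j)).card : ℝ) := by
    have e1 : X ⊆ X₁ ∪ (Dg b 𝒟 (j + n)).filter (fun k => k < b ^ j) := by
      intro k hk
      rw [mem_union, hX₁, mem_filter, mem_filter]
      rcases lt_or_ge k (b ^ j) with h5 | h5
      · exact Or.inr ⟨hX hk, h5⟩
      · exact Or.inl ⟨hk, h5⟩
    exact_mod_cast (card_le_card e1).trans (card_union_le _ _)
  have f2 : ((Dg b 𝒟 (j + n)).card : ℝ) / 2 ^ n ≤ (Dg b 𝒟 (j + n)).card / (2 * T) :=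
    div_le_div_of_nonneg_left hD0 (by positivity) hn2.le
  rw [← hT]
  calc (X.card : ℝ) ≤ (Dg b 𝒟 (j + n)).card / (2 * T) + (Dg b 𝒟 (j + n)).card / (2 * T) := by linarith
    _ = (Dg b 𝒟 (j + n)).card / T := by field_simp; ring

end Pool.Agent.X275.MD
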