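import Pool.Agent.X275.MD.MD5
import Pool.Agent.Y883.T5.Baker

set_option autoImplicit false

/-! # Linear equations in three primes, the large coefficient with missing digits: one scale -/

namespace Pool.Agent.X275.MD

open Finset Filter Topology
open Pool.Agent.X31 (Sch PBil FamP FamO)
open Pool.Agent.X31.CT (Dg DS)
open Pool.Agent.Y883.T5 (Adm Solv sizes loc_class prime_count win_real pow_bound)

theorem windowR (T A : ℕ) (hA : 4 * T + 10 ≤ A) (ρ : ℝ) (hρ : 0 < ρ) : ∃ N₀ : ℕ, ∀ N : ℕ, N₀ ≤ N → ∀ q : ℕ, 1 ≤ q →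
    (q : ℝ) ≤ (N : ℝ) ^ (1 - ρ) → ∀ X : ℕ, 8 * X ≤ N → N ≤ 16 * X → ∀ M R : ℕ, 1 ≤ M →
    (M : ℝ) ≤ 2 * Real.log N ^ (4 * T) → R.Coprime M → ∃ C : Finset ℕ,
      (∀ r ∈ C, r.Prime ∧ r ≡ R [MOD M] ∧ 5 * X < 4 * (q * r) ∧ 2 * (q * r) ≤ 3 * X) ∧
      8 * ((N : ℝ) / (q * Real.log N ^ A)) < C.card := by
  classical
  obtain ⟨N₃, h3⟩ := prime_count (4 * T + 1)
  obtain ⟨N₄, h4⟩ := log_ev (8192 + 2 * Real.log 16 / ρ + (2 / ρ) * (2 * (2 / ρ) ^ (4 * T)))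
  obtain ⟨N₅, h5⟩ : ∃ N₅ : ℕ, ∀ N : ℕ, N₅ ≤ N → 16 * (N₃ + 16 : ℝ) ≤ (N : ℝ) ^ ρ := by
    have h := ((tendsto_rpow_atTop hρ).comp tendsto_natCast_atTop_atTop).eventually_ge_atTop (16 * (N₃ + 16 : ℝ))
    exact eventually_atTop.1 h
  refine ⟨N₄ + N₅ + 16, fun N hN q hq1 hqN X hX1 hX2 M R hM1 hMr hRM => ?_⟩
  have hL := h4 N (by omega)
  have hκ1 := h5 N (by omega)
  have hN1 : 1 ≤ N := by omega
  have hN0 : (0 : ℝ) < N := by exact_mod_cast hN1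
  obtain ⟨L, hLd⟩ : ∃ L, L = Real.log (N : ℝ) := ⟨_, rfl⟩
  rw [← hLd] at hL hMr ⊢
  have hl16 : 0 ≤ 2 * Real.log 16 / ρ := by
    have : 0 ≤ Real.log 16 := Real.log_nonneg (by norm_num)
    positivity
  have h4T : (0 : ℝ) ≤ (2 / ρ) * (2 * (2 / ρ) ^ (4 * T)) := by positivity
  have hL8 : 8192 ≤ L := by linarith
  have hL0 : 0 < L := by linarith
  have hq0 : (0 : ℝ) < q := by exact_mod_cast hq1
  have hX16 : (N : ℝ) ≤ 16 * X := by exact_mod_cast hX2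
  have hX8 : 8 * (X : ℝ) ≤ N := by exact_mod_cast hX1
  obtain ⟨κ, hκ⟩ : ∃ κ : ℝ, κ = (N : ℝ) ^ ρ := ⟨_, rfl⟩
  rw [← hκ] at hκ1
  have hN30 : (0 : ℝ) ≤ N₃ := Nat.cast_nonneg _
  have hκ0 : 0 < κ := by linarith
  have hqκ : (q : ℝ) * κ ≤ N := by
    calc (q : ℝ) * κ ≤ (N : ℝ) ^ (1 - ρ) * κ := mul_le_mul_of_nonneg_right hqN hκ0.le
      _ = N := by rw [hκ, ← Real.rpow_add hN0]; norm_num
  obtain ⟨Ξ, hΞ⟩ : ∃ Ξ : ℝ, Ξ = X / q := ⟨_, rfl⟩
  have hΞX : Ξ * q = X := by rw [hΞ]; field_simp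
  have hXq : κ / 16 ≤ Ξ := by
    rw [hΞ, div_le_div_iff₀ (by norm_num) hq0]
    linarith [mul_comm (q : ℝ) κ]
  have hXq16 : (N₃ : ℝ) + 16 ≤ Ξ := by linarith
  obtain ⟨R1, hR1⟩ : ∃ R1, R1 = 5 * X / (4 * q) := ⟨_, rfl⟩
  obtain ⟨R2, hR2⟩ : ∃ R2, R2 = 3 * X / (2 * q) := ⟨_, rfl⟩
  have h4q : 0 < 4 * q := by omega
  have h2q0 : 0 < 2 * q := by omega
  have hR1a : R1 * (4 * q) ≤ 5 * X := by rw [hR1]; exact Nat.div_mul_le_self _ _
  have hR2a : R2 * (2 * q) ≤ 3 * X := by rw [hR2]; exact Nat.div_mul_le_self _ _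
  have hR1b : 5 * X < (R1 + 1) * (4 * q) := by rw [hR1, ← Nat.div_lt_iff_lt_mul h4q]; omega
  have hR2b : 3 * X < (R2 + 1) * (2 * q) := by rw [hR2, ← Nat.div_lt_iff_lt_mul h2q0]; omega
  obtain ⟨r1, r2, r3, r4, r5⟩ := win_real (R1 := (R1 : ℝ)) (R2 := (R2 : ℝ)) hq0 hΞX hXq16 hN30 (by exact_mod_cast hR1a) (by exact_mod_cast hR2a)
    (by exact_mod_cast hR1b) (by exact_mod_cast hR2b)
  have hΞ0 : 0 < Ξ := by linarith
  have hR12 : R1 ≤ R2 := by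
    have : (R1 : ℝ) ≤ R2 := by linarith
    exact_mod_cast this
  have hR12' : R2 ≤ 12 * (R2 - R1) := by
    have e : ((12 * (R2 - R1) : ℕ) : ℝ) = 12 * ((R2 : ℝ) - R1) := by push_cast [Nat.cast_sub hR12]; ring
    have : ((R2 : ℕ) : ℝ) ≤ ((12 * (R2 - R1) : ℕ) : ℝ) := by rw [e]; exact r2
    exact_mod_cast this
  have hR1N : N₃ ≤ R1 := by exact_mod_cast r3
  have hR1κ : κ / 16 ≤ R1 := by linarith
  have hlogR1 : ρ / 2 * L ≤ Real.log R1 := by
    have e1 : Real.log (κ / 16) ≤ Real.log R1 := Real.log_le_log (by positivity) hR1κ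
    rw [Real.log_div hκ0.ne' (by norm_num), hκ, Real.log_rpow hN0, ← hLd] at e1
    have e2 : 2 * Real.log 16 / ρ ≤ L := by linarith
    rw [div_le_iff₀ hρ] at e2
    linarith
  have hM0 : (0 : ℝ) < M := by exact_mod_cast hM1
  have hℓ0 : 0 < Real.log R1 := lt_of_lt_of_le (by positivity) hlogR1
  have hLR : L ≤ 2 / ρ * Real.log R1 := by
    calc L = 2 / ρ * (ρ / 2 * L) := by field_simp
      _ ≤ 2 / ρ * Real.log R1 := mul_le_mul_of_nonneg_left hlogR1 (by positivity)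
  have hMlog : (M : ℝ) ≤ Real.log R1 ^ (4 * T + 1) := by
    have e3 : 2 * (2 / ρ) ^ (4 * T) ≤ Real.log R1 := by
      have e4 : (2 / ρ) * (2 * (2 / ρ) ^ (4 * T)) ≤ 2 / ρ * Real.log R1 := by linarith
      exact le_of_mul_le_mul_left e4 (by positivity)
    calc (M : ℝ) ≤ 2 * L ^ (4 * T) := hMr
      _ ≤ 2 * (2 / ρ * Real.log R1) ^ (4 * T) := by
          apply mul_le_mul_of_nonneg_left _ (by norm_num)
          exact pow_le_pow_left₀ hL0.le hLR _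
      _ = (2 * (2 / ρ) ^ (4 * T)) * Real.log R1 ^ (4 * T) := by rw [mul_pow]; ring
      _ ≤ Real.log R1 * Real.log R1 ^ (4 * T) := mul_le_mul_of_nonneg_right e3 (by positivity)
      _ = Real.log R1 ^ (4 * T + 1) := by ring
  have hcnt := h3 R1 hR1N R2 hR12 hR12' M R hM1 hMlog hRM
  have hΞX' : Ξ ≤ X := by
    rw [← hΞX]
    have : (1 : ℝ) ≤ q := by exact_mod_cast hq1
    exact le_mul_of_one_le_right hΞ0.le this
  have hR2N : (R2 : ℝ) ≤ N := by linarith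
  have hR20 : (0 : ℝ) < R2 := by linarith
  have hlogR2 : Real.log R2 ≤ L := by rw [hLd]; exact Real.log_le_log hR20 hR2N
  have hR10 : (0 : ℝ) < R1 := by linarith
  have hlogR20 : 0 < Real.log R2 := lt_of_lt_of_le hℓ0 (Real.log_le_log hR10 (by exact_mod_cast hR12))
  refine ⟨(Ioc R1 R2).filter (fun r : ℕ => r.Prime ∧ r ≡ R [MOD M]), ?_,
    lt_of_lt_of_le (pow_bound hL8 hA hq0 hΞX hX16 hM0 hMr hlogR20 hlogR2 hΞ0 r1) hcnt⟩
  intro r hr
  rw [mem_filter, mem_Ioc] at hr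
  obtain ⟨⟨w1, w2⟩, w3, w4⟩ := hr
  refine ⟨w3, w4, ?_, ?_⟩
  · calc 5 * X < (R1 + 1) * (4 * q) := hR1b
      _ ≤ r * (4 * q) := Nat.mul_le_mul_right _ w1
      _ = 4 * (q * r) := by ring
  · calc 2 * (q * r) = r * (2 * q) := by ring
      _ ≤ R2 * (2 * q) := Nat.mul_le_mul_right _ w2
      _ ≤ 3 * X := hR2a

/-- the property of the integers `h = (d + q r) / g` -/
def RL (T : ℕ) : ℕ → ℤ → Prop := fun N c => c = 0 ∨ Pool.Agent.TH935.LF.HW (1 / 2) (T + 2) 1 T N c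

theorem solvR (T A : ℕ) (hA : 4 * T + 10 ≤ A) (ρ : ℝ) (hρ : 0 < ρ) : ∃ N₀ : ℕ, ∀ N : ℕ, N₀ ≤ N → ∀ q : ℕ, 1 ≤ q →
    (q : ℝ) ≤ (N : ℝ) ^ (1 - ρ) →
    (∀ (g : ℕ) (δ : ℝ), 1 ≤ g → (g : ℝ) ≤ Real.log N ^ A →
      ((badY (RL T) A N q g δ).card : ℝ) < N / (q * Real.log N ^ A)) → Solv N T q := by
  classical
  obtain ⟨N₃, h3⟩ := windowR T A hA ρ hρ
  obtain ⟨N₄, h4⟩ := log_ev 512
  obtain ⟨N₅, h5⟩ : ∃ N₅ : ℕ, ∀ N : ℕ, N₅ ≤ N → 256 * Real.log N ^ (T + 1) ≤ N := by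
    have h := (isLittleO_log_rpow_rpow_atTop ((T + 1 : ℕ) : ℝ) (show (0 : ℝ) < 1 by norm_num)).bound
      (show (0 : ℝ) < 1 / 256 by norm_num)
    have e : ∀ᶠ N : ℕ in atTop, 256 * Real.log N ^ (T + 1) ≤ N := by
      filter_upwards [tendsto_natCast_atTop_atTop.eventually h, eventually_ge_atTop 3] with N hN h3
      have hN0 : (1 : ℝ) ≤ N := by exact_mod_cast (by omega : 1 ≤ N)
      rw [Real.rpow_natCast, Real.rpow_one, Real.norm_of_nonneg (pow_nonneg (Real.log_nonneg hN0) _),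
        Real.norm_of_nonneg (by linarith)] at hN
      linarith
    exact eventually_atTop.1 e
  refine ⟨N₃ + N₄ + N₅ + 3, fun N hN q hq1 hqN hbad a₀ b₀ d X hX1 hX2 hd ha₀ hb₀ haT hbT hadm => ?_⟩
  by_contra hno
  have c3 := h3 N (by omega) q hq1 hqN X hX1 hX2
  have hL512 := h4 N (by omega)
  have c5 := h5 N (by omega)
  have hN1 : 1 ≤ N := by omega
  have hN0 : (0 : ℝ) < N := by exact_mod_cast hN1
  obtain ⟨L, hLd⟩ : ∃ L, L = Real.log (N : ℝ) := ⟨_, rfl⟩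
  rw [← hLd] at c3 haT hbT hL512 c5 hbad
  have hL1 : 1 ≤ L := by linarith
  have hL0 : 0 < L := by linarith
  have hX0 : 0 < X := by omega
  have hX16 : (N : ℝ) ≤ 16 * X := by exact_mod_cast hX2
  have hX8 : 8 * (X : ℝ) ≤ N := by exact_mod_cast hX1
  -- the coefficients
  obtain ⟨g, hg⟩ : ∃ g, g = Int.gcd a₀ b₀ := ⟨_, rfl⟩
  have hg1 : 1 ≤ g := by rw [hg]; exact Int.gcd_pos_of_ne_zero_left _ ha₀.ne'
  obtain ⟨a', b, hab, ha', hb⟩ := Int.exists_gcd_one (by rw [← hg]; exact hg1 : 0 < Int.gcd a₀ b₀)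
  rw [← hg] at ha' hb
  have hg0 : (0 : ℤ) < g := by exact_mod_cast hg1
  have hg0r : (0 : ℝ) < g := by exact_mod_cast hg1
  have ha'0 : 0 < a' := by
    by_contra hcon
    push Not at hcon
    have : a' * g ≤ 0 := mul_nonpos_of_nonpos_of_nonneg hcon hg0.le
    omega
  obtain ⟨a, ha⟩ : ∃ a : ℕ, (a : ℤ) = a' := ⟨a'.toNat, Int.toNat_of_nonneg ha'0.le⟩
  rw [← ha] at ha' hab ha'0
  clear ha
  have ha1 : 1 ≤ a := by exact_mod_cast ha'0
  have hb0 : b ≠ 0 := by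
    intro h
    rw [h, zero_mul] at hb
    exact hb₀ hb
  have hcop : IsCoprime (a : ℤ) b := Int.isCoprime_iff_gcd_eq_one.2 hab
  have haβ : (a : ℤ) ≠ 0 := ha'0.ne'
  have ea₀ : (g : ℤ) * a = a₀ := by rw [ha', mul_comm]
  have eb₀ : (g : ℤ) * b = b₀ := by rw [hb, mul_comm]
  clear ha' hb hg
  obtain ⟨M, R, hM1, hM2, hM3, hRM, hloc⟩ := loc_class g hg1 a b q d haβ hb0 hcop
    (by rw [ea₀, eb₀]; exact hadm.h1) (by rw [ea₀, eb₀]; exact hadm.h2) (by rw [ea₀]; exact hadm.h3)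
    (by rw [eb₀]; exact hadm.h4) (by rw [ea₀, eb₀]; exact hadm.par)
  rw [Int.natAbs_natCast] at hM2 hM3
  -- the size of the modulus
  have hbb₀ : b.natAbs ≤ b₀.natAbs := by
    rw [← eb₀, Int.natAbs_mul, Int.natAbs_natCast]
    exact Nat.le_mul_of_pos_left _ hg1
  have hgab : ((g * a * b.natAbs : ℕ) : ℝ) ≤ L ^ (2 * T) := by
    have e1 : ((g * a : ℕ) : ℝ) = a₀ := by rw [← ea₀]; push_cast; ring
    have e3 : ((b.natAbs : ℕ) : ℝ) ≤ L ^ T := le_trans (by exact_mod_cast hbb₀) hbT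
    have e4 : (0 : ℝ) ≤ L ^ T := le_trans (Nat.cast_nonneg _) hbT
    calc ((g * a * b.natAbs : ℕ) : ℝ) = ((g * a : ℕ) : ℝ) * (b.natAbs : ℕ) := by push_cast; ring
      _ ≤ L ^ T * L ^ T := mul_le_mul (by rw [e1]; exact haT) e3 (by positivity) e4
      _ = L ^ (2 * T) := by rw [← pow_add]; ring_nf
  have hMr : (M : ℝ) ≤ 2 * L ^ (4 * T) := by
    calc (M : ℝ) ≤ ((2 * (g * a * b.natAbs) ^ 2 : ℕ) : ℝ) := by exact_mod_cast hM2
      _ = 2 * ((g * a * b.natAbs : ℕ) : ℝ) ^ 2 := by push_cast; ring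
      _ ≤ 2 * (L ^ (2 * T)) ^ 2 := by gcongr
      _ = 2 * L ^ (4 * T) := by rw [← pow_mul]; ring_nf
  obtain ⟨C, hC, hCbig⟩ := c3 M R hM1 hMr hRM
  clear c3 hMr hgab hM2
  -- the shifts
  obtain ⟨β, hβ⟩ : ∃ β : ℤ, β = -b := ⟨_, rfl⟩
  have hβ0 : β ≠ 0 := by rw [hβ]; exact neg_ne_zero.2 hb0
  have hgβ : (g : ℤ) * β = -b₀ := by rw [hβ, mul_neg, eb₀]
  obtain ⟨hh, hhh⟩ : ∃ hh : ℕ → ℤ, hh = fun r : ℕ => (d + q * r) / g := ⟨_, rfl⟩
  have hprop : ∀ r ∈ C, d + q * r = g * hh r ∧ IsCoprime (hh r) a ∧ IsCoprime (hh r) β ∧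
      (¬ (2 : ℤ) ∣ a * β → (2 : ℤ) ∣ hh r) := by
    intro r hr
    obtain ⟨h, e1, e2, e3, e4⟩ := hloc r (hC r hr).2.1
    have e5 : hh r = h := by
      rw [hhh]
      simp only
      rw [e1, Int.mul_ediv_cancel_left _ hg0.ne']
    rw [e5, hβ]
    refine ⟨e1, e2, e3.neg_right, fun h => e4 ?_⟩
    intro hcon
    apply h
    rw [mul_neg]
    exact (dvd_neg).2 hcon
  -- the range of `n`
  have hb₀1 : 1 ≤ b₀.natAbs := Int.natAbs_pos.2 hb₀
  obtain ⟨Y, hY⟩ : ∃ Y, Y = X / (8 * b₀.natAbs) := ⟨_, rfl⟩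
  have hY1 : Y * (8 * b₀.natAbs) ≤ X := by rw [hY]; exact Nat.div_mul_le_self _ _
  have hY2 : X < (Y + 1) * (8 * b₀.natAbs) := by
    rw [hY, ← Nat.div_lt_iff_lt_mul (by omega)]
    omega
  have hYX : 8 * Y ≤ X := by
    calc 8 * Y = Y * (8 * 1) := by ring
      _ ≤ Y * (8 * b₀.natAbs) := Nat.mul_le_mul_left _ (by omega)
      _ ≤ X := hY1
  have hLT0 : (0 : ℝ) < L ^ T := by positivity
  have hYlow : (N : ℝ) / L ^ (T + 2) ≤ Y := by
    have e1 : (X : ℝ) ≤ (Y + 1) * (8 * L ^ T) := by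
      calc (X : ℝ) ≤ (((Y + 1) * (8 * b₀.natAbs) : ℕ) : ℝ) := by exact_mod_cast hY2.le
        _ = (Y + 1) * (8 * (b₀.natAbs : ℝ)) := by push_cast; ring
        _ ≤ (Y + 1) * (8 * L ^ T) := by
            apply mul_le_mul_of_nonneg_left _ (by positivity)
            linarith
    have e2 : (N : ℝ) ≤ (Y + 1) * (128 * L ^ T) := by linarith
    have e3 : (N : ℝ) / L ^ (T + 1) ≤ Y + 1 := by
      rw [div_le_iff₀ (by positivity)]
      refine e2.trans ?_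
      apply mul_le_mul_of_nonneg_left _ (by positivity)
      calc 128 * L ^ T ≤ L * L ^ T := mul_le_mul_of_nonneg_right (by linarith) hLT0.le
        _ = L ^ (T + 1) := by ring
    have e4 : 256 ≤ (N : ℝ) / L ^ (T + 1) := by
      rw [le_div_iff₀ (by positivity)]
      exact c5
    have e5 : (N : ℝ) / L ^ (T + 2) ≤ (N : ℝ) / L ^ (T + 1) / 2 := by
      rw [div_div]
      apply div_le_div_of_nonneg_left hN0.le (by positivity)
      calc L ^ (T + 1) * 2 ≤ L ^ (T + 1) * L := mul_le_mul_of_nonneg_left (by linarith) (by positivity)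
        _ = L ^ (T + 2) := by ring
    linarith
  have hwin : ∀ r ∈ C, 5 * (X : ℤ) < 4 * (q * r) ∧ 2 * ((q : ℤ) * r) ≤ 3 * X := by
    intro r hr
    obtain ⟨_, _, w1, w2⟩ := hC r hr
    exact ⟨by exact_mod_cast w1, by exact_mod_cast w2⟩
  have hbn : ∀ n : ℕ, n ≤ Y → 8 * |b₀ * n| ≤ X := by
    intro n hn
    have e1 : n * (8 * b₀.natAbs) ≤ X := (Nat.mul_le_mul_right _ hn).trans hY1
    have e2 : (n : ℤ) * (8 * (b₀.natAbs : ℕ)) ≤ X := by exact_mod_cast e1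
    rw [Int.natCast_natAbs] at e2
    rw [abs_mul, abs_of_nonneg (Int.natCast_nonneg n)]
    calc 8 * (|b₀| * (n : ℤ)) = (n : ℤ) * (8 * |b₀|) := by ring
      _ ≤ X := e2
  have ha8 : 8 * a₀ ≤ X := by
    have e1 : 128 * (a₀ : ℝ) ≤ N := by
      calc 128 * (a₀ : ℝ) ≤ 128 * L ^ T := by linarith
        _ ≤ 256 * L ^ (T + 1) := by
            have : L ^ T ≤ L ^ (T + 1) := pow_le_pow_right₀ hL1 (by omega)
            linarith
        _ ≤ N := c5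
    have : 8 * (a₀ : ℝ) ≤ X := by linarith
    exact_mod_cast this
  have hG : ∀ r ∈ C, ∀ n : ℕ, n ≤ Y → 1 ≤ hh r + β * n ∧ hh r + β * n ≤ N ∧ (a : ℤ) ≤ hh r + β * n ∧
      g * (hh r + β * n) ≤ 3 * X ∧ g * (hh r + β * n) = d + q * r - b₀ * n := fun r hr n hn =>
    sizes hg1 (by exact_mod_cast hX0) (by exact_mod_cast hX1) hd hgβ (hprop r hr).1 (hwin r hr).1 (hwin r hr).2
      (hbn n hn) ea₀ ha8
  have haT' : (a : ℝ) ≤ L ^ T := by
    have e1 : (a : ℤ) ≤ a₀ := by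
      rw [← ea₀]
      exact le_mul_of_one_le_left ha'0.le (by exact_mod_cast hg1)
    exact le_trans (by exact_mod_cast e1) haT
  -- no `h` has the property
  have hnoR : ∀ r ∈ C, ¬ RL T N (hh r) := by
    intro r hr hR
    obtain ⟨p1, p2, p3, p4⟩ := hprop r hr
    have hh0 := (hG r hr 0 (Nat.zero_le _)).1
    rw [Nat.cast_zero, mul_zero, add_zero] at hh0
    rcases hR with hR | hR
    · omega
    have hYpos : 0 < Y := by
      have : (0 : ℝ) < Y := lt_of_lt_of_le (by positivity) hYlow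
      exact_mod_cast this
    have h2 : (2 : ℤ) ∣ a * β * hh r := by
      by_cases h : (2 : ℤ) ∣ a * β
      · exact Dvd.dvd.mul_right h _
      · exact Dvd.dvd.mul_left (p4 h) _
    have key := hR a β ha1 (by rw [← hLd]; exact haT') hβ0 (by
      rw [← hLd, hβ, Int.natAbs_neg]
      exact le_trans (by exact_mod_cast hbb₀) hbT) (by rw [hβ]; exact hcop.neg_right) p2.symm p3.symm h2 0 Y hYpos
      (by omega) (by rw [← hLd, Nat.cast_zero, sub_zero]; exact hYlow) (by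
      intro n hn
      rw [mem_Ioc] at hn
      have := (hG r hr n hn.2).1
      omega)
    have hs := Pool.Agent.W93.GB.one_le_sing (a * β * hh r).natAbs
    obtain ⟨Z, hZ⟩ : ∃ Z : ℝ, Z = Pool.Agent.H560R3.GB.sing (a * β * hh r).natAbs * ((Y : ℝ) - (0 : ℕ)) /
      (a * Real.log N ^ 2) := ⟨_, rfl⟩
    rw [← hZ] at key
    have hZ0 : 0 < Z := by
      rw [hZ, ← hLd, Nat.cast_zero, sub_zero]
      have : (0 : ℝ) < Y := by exact_mod_cast hYpos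
      have : (0 : ℝ) < a := by exact_mod_cast ha1
      positivity
    have hcn : 0 < Pool.Agent.TH935.LF.cn a β (hh r) 0 Y := by
      have e1 := (abs_le.1 key).1
      have : (0 : ℝ) < Pool.Agent.TH935.LF.cn a β (hh r) 0 Y := by linarith
      exact_mod_cast this
    unfold Pool.Agent.TH935.LF.cn at hcn
    rw [card_pos] at hcn
    obtain ⟨n, hn⟩ := hcn
    rw [mem_filter, mem_Ioc] at hn
    obtain ⟨⟨_, hnY⟩, hnp, p, hp, hpn⟩ := hn
    obtain ⟨g1, g2, g3, g4, g5⟩ := hG r hr n hnY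
    have hap : a₀ * p = g * (hh r + β * n) := by rw [← hpn, ← ea₀]; ring
    have hfin : a₀ * p + b₀ * n = d + q * r := by
      rw [hap, g5]
      ring
    have hp3 : (p : ℤ) ≤ 3 * X := by
      have e1 : (p : ℤ) ≤ a₀ * p := le_mul_of_one_le_left (Int.natCast_nonneg p) ha₀
      linarith
    have hr3 : (r : ℤ) ≤ 3 * X := by
      have e1 : (r : ℤ) ≤ q * r := le_mul_of_one_le_left (Int.natCast_nonneg r) (by exact_mod_cast hq1)
      linarith [(hwin r hr).2, Int.natCast_nonneg (n := r), Int.natCast_nonneg (n := X)]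
    exact hno ⟨p, n, r, hp, hnp, (hC r hr).1, hfin, by exact_mod_cast hp3, by omega, by exact_mod_cast hr3⟩
  -- many bad `r`
  have hgL : (g : ℝ) ≤ L ^ A := by
    have e1 : (g : ℤ) ≤ a₀ := by
      rw [← ea₀]
      exact le_mul_of_one_le_right hg0.le (by exact_mod_cast ha1)
    have e2 : (g : ℝ) ≤ a₀ := by exact_mod_cast e1
    exact e2.trans (haT.trans (pow_le_pow_right₀ hL1 (by omega)))
  have hlt := hbad g ((d : ℝ) / g) hg1 hgL
  have hsub : C ⊆ badY (RL T) A N q g ((d : ℝ) / g) := by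
    intro r hr
    obtain ⟨p1, p2, p3, p4⟩ := hprop r hr
    obtain ⟨w1, w2⟩ := hwin r hr
    unfold badY
    rw [mem_filter, mem_range]
    have hval : (q : ℝ) / g * r + (d : ℝ) / g = hh r := by
      have e1 : ((d : ℝ) + q * r) = g * hh r := by exact_mod_cast p1
      rw [div_mul_eq_mul_div, ← add_div, div_eq_iff hg0r.ne']
      linarith
    refine ⟨?_, ?_, hh r, ?_, hnoR r hr⟩
    · have e1 : r * q ≤ N := by
        have e2 : 2 * (q * r) ≤ 3 * X := by exact_mod_cast w2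
        calc r * q = q * r := mul_comm _ _
          _ ≤ N := by omega
      have := (Nat.le_div_iff_mul_le hq1).2 e1
      omega
    · rw [hval]
      obtain ⟨g1, g2, -⟩ := hG r hr 0 (Nat.zero_le _)
      rw [Nat.cast_zero, mul_zero, add_zero] at g1 g2
      rw [abs_of_nonneg (by exact_mod_cast (by omega : (0 : ℤ) ≤ hh r))]
      exact_mod_cast g2
    · rw [hval, sub_self, abs_zero, ← hLd]
      positivity
  have h6 : (C.card : ℝ) ≤ (badY (RL T) A N q g ((d : ℝ) / g)).card := by exact_mod_cast card_le_card hsub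
  have h7 : 0 < (N : ℝ) / (q * L ^ A) := by
    have : (0 : ℝ) < q := by exact_mod_cast hq1
    positivity
  linarith

end Pool.Agent.X275.MD
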