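import Pool.Agent.X275.MD.MD6

set_option autoImplicit false

/-! # Linear equations in three primes, the large coefficient with missing digits: all scales -/

namespace Pool.Agent.X275.MD

open Finset Filter Topology
open Pool.Agent.X31 (Sch PBil FamP FamO)
open Pool.Agent.X31.CT (Dg DS)
open Pool.Agent.Y883.T5 (Solv Admissible sol_of_solv)

lemma rpow_log_ev (κ η : ℝ) (hκ : 0 < κ) (hη : 0 < η) (E : ℕ) :
    ∃ N₀ : ℕ, ∀ N : ℕ, N₀ ≤ N → κ * Real.log N ^ E ≤ (N : ℝ) ^ η := by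
  have h := (isLittleO_log_rpow_rpow_atTop (E : ℝ) hη).bound (show (0 : ℝ) < 1 / κ by positivity)
  have e2 : ∀ᶠ N : ℕ in atTop, κ * Real.log N ^ E ≤ (N : ℝ) ^ η := by
    filter_upwards [tendsto_natCast_atTop_atTop.eventually h, eventually_ge_atTop 3] with N hN h3
    have hN0 : (1 : ℝ) ≤ N := by exact_mod_cast (by omega : 1 ≤ N)
    rw [Real.rpow_natCast, Real.norm_of_nonneg (pow_nonneg (Real.log_nonneg hN0) _),
      Real.norm_of_nonneg (by positivity), div_mul_eq_mul_div, one_mul, le_div_iff₀ hκ] at hN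
    linarith [mul_comm (Real.log N ^ E) κ]
  exact eventually_atTop.1 e2

/-- one scale -/
theorem scaleN {b : ℕ} (hb : 2 ≤ b) (η : ℝ) (hη : 0 < η) (T A : ℕ) (hA : 4 * T + 10 ≤ A) :
    ∃ N₀ : ℕ, ∀ N : ℕ, N₀ ≤ N → ∀ (M c₀ : ℕ) (𝒟 : ℕ → Finset ℕ), DS b 𝒟 →
      (N : ℝ) ^ η ≤ (b : ℝ) ^ M → (b : ℝ) ^ M ≤ (N : ℝ) ^ (1 - η) → (c₀ : ℝ) ≤ (b : ℝ) ^ M * Real.log N ^ A →
      ∀ X : Finset ℕ, X ⊆ Dg b 𝒟 M → (∀ k ∈ X, 1 ≤ c₀ + k ∧ ¬ Solv N T (c₀ + k)) →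
        (X.card : ℝ) ≤ (Dg b 𝒟 M).card / Real.log N ^ A := by
  classical
  obtain ⟨N₁, h1⟩ := moduliG hb η hη (RL T) (fun lam hl => alm_single (Pool.Agent.X31.Sch_bil hb le_rfl lam hl)
    (fun h _ => Pool.Agent.X31.famO_lin h (1 / 2) (by norm_num) le_rfl (T + 2) 1 T)) A
  obtain ⟨N₂, h2⟩ := solvR T A hA (η / 2) (by linarith)
  obtain ⟨N₃, h3⟩ := rpow_log_ev 2 (η / 2) (by norm_num) (by linarith) A
  obtain ⟨N₄, h4⟩ := log_ev 1
  refine ⟨N₁ + N₂ + N₃ + N₄ + 3, fun N hN M c₀ 𝒟 hDS hlo hhi hc₀ X hX hbad => ?_⟩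
  apply h1 N (by omega) M c₀ 𝒟 hDS hlo hhi hc₀ X hX
  intro k hk hk1
  obtain ⟨-, hns⟩ := hbad k hk
  by_contra hcon
  push Not at hcon
  apply hns
  have hN0 : (0 : ℝ) < N := by exact_mod_cast (by omega : 0 < N)
  have hL1 := h4 N (by omega)
  have hq : ((c₀ + k : ℕ) : ℝ) ≤ (N : ℝ) ^ (1 - η / 2) := by
    have hk2 : (k : ℝ) ≤ (b : ℝ) ^ M := by
      have h5 := (mem_filter.1 (hX hk)).1
      rw [mem_range] at h5
      exact_mod_cast h5.le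
    have hLA : 1 ≤ Real.log N ^ A := one_le_pow₀ hL1
    have hB0 : (0 : ℝ) ≤ (b : ℝ) ^ M := by positivity
    push_cast
    calc (c₀ : ℝ) + k ≤ (b : ℝ) ^ M * Real.log N ^ A + (b : ℝ) ^ M * 1 := by linarith
      _ ≤ (b : ℝ) ^ M * Real.log N ^ A + (b : ℝ) ^ M * Real.log N ^ A := by
          have := mul_le_mul_of_nonneg_left hLA hB0
          linarith
      _ = (b : ℝ) ^ M * (2 * Real.log N ^ A) := by ring
      _ ≤ (N : ℝ) ^ (1 - η) * (N : ℝ) ^ (η / 2) :=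
          mul_le_mul hhi (h3 N (by omega)) (by positivity) (by positivity)
      _ = (N : ℝ) ^ (1 - η / 2) := by
          rw [← Real.rpow_add hN0]
          congr 1
          ring
  exact h2 N (by omega) (c₀ + k) hk1 hq (fun g δ hg1 hg2 => hcon g δ hg1 hg2)

end Pool.Agent.X275.MD
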