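import Pool.Agent.X275.MD.MD7

set_option autoImplicit false

/-! # Linear equations in three primes, the large coefficient with missing digits: conclusion -/

namespace Pool.Agent.X275.MD

open Finset Filter Topology
open Pool.Agent.X31.CT (Dg DS)
open Pool.Agent.Y883.T5 (Solv Admissible sol_of_solv)

/-- small solutions for all equations with the coefficient `c`, `|c| = q` -/
def GoodQ (ε : ℝ) (T K q : ℕ) : Prop := ∀ a b c d : ℤ, Admissible a b c d → c.natAbs = q →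
  |(a : ℝ)| ≤ Real.log |(c : ℝ)| ^ T → |(b : ℝ)| ≤ Real.log |(c : ℝ)| ^ T → |d| ≤ |c| ^ K →
  ∃ p₁ p₂ p₃ : ℕ, p₁.Prime ∧ p₂.Prime ∧ p₃.Prime ∧ a * p₁ + b * p₂ + c * p₃ = d ∧
    ((max p₁ (max p₂ p₃) : ℕ) : ℝ) ≤ 3 * |(d : ℝ)| + |(c : ℝ)| ^ (1 + ε)

/-- one modulus: from the scales to the equations -/
lemma good_of_scales {ε δ : ℝ} (hδ0 : 0 < δ) (hδε : δ ≤ ε) {T K q : ℕ} (hq1 : 1 ≤ q)
    (hq6 : (6 : ℝ) ^ (2 / δ) ≤ q)
    (hS : ∀ i : ℕ, (q : ℝ) ^ (1 + δ / 2) ≤ ((2 ^ i : ℕ) : ℝ) → ((2 ^ i : ℕ) : ℝ) ≤ 32 * (q : ℝ) ^ (K + 2) → δ ≤ 1 →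
      Solv (2 ^ i) T q) (hδ1 : δ ≤ 1) : GoodQ ε T K q := by
  intro a b c d hadm hcq haT hbT hdK
  have hq1' : (q : ℤ) = |c| := by rw [← hcq]; exact Int.natCast_natAbs c
  have hqr : (q : ℝ) = |(c : ℝ)| := by
    have : ((q : ℤ) : ℝ) = ((|c| : ℤ) : ℝ) := by rw [hq1']
    push_cast at this
    exact this
  rw [← hqr] at haT hbT ⊢
  rw [← hq1'] at hdK
  have hq0 : (0 : ℝ) < q := by exact_mod_cast hq1
  have hq1r : (1 : ℝ) ≤ q := by exact_mod_cast hq1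
  -- the scale
  obtain ⟨Yc, hYc⟩ : ∃ Yc : ℕ, Yc = ⌈(q : ℝ) ^ (1 + δ / 2)⌉₊ := ⟨_, rfl⟩
  have hYc1 : (q : ℝ) ^ (1 + δ / 2) ≤ Yc := by rw [hYc]; exact Nat.le_ceil _
  have hYc2 : (Yc : ℝ) < (q : ℝ) ^ (1 + δ / 2) + 1 := by rw [hYc]; exact Nat.ceil_lt_add_one (by positivity)
  obtain ⟨X, hX⟩ : ∃ X, X = max d.natAbs Yc := ⟨_, rfl⟩
  have hXd : |d| ≤ X := by
    rw [← Int.natCast_natAbs, hX]
    exact_mod_cast le_max_left _ _
  have hXY : (q : ℝ) ^ (1 + δ / 2) ≤ X := by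
    refine hYc1.trans ?_
    rw [hX]
    exact_mod_cast le_max_right _ _
  have hqX : (q : ℝ) ≤ (q : ℝ) ^ (1 + δ / 2) := by
    calc (q : ℝ) = (q : ℝ) ^ (1 : ℝ) := (Real.rpow_one _).symm
      _ ≤ _ := Real.rpow_le_rpow_of_exponent_le hq1r (by linarith)
  have hqK : (q : ℝ) ^ (1 + δ / 2) ≤ (q : ℝ) ^ (K + 2) := by
    rw [← Real.rpow_natCast (q : ℝ) (K + 2)]
    apply Real.rpow_le_rpow_of_exponent_le hq1r
    push_cast
    have : (0 : ℝ) ≤ K := Nat.cast_nonneg _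
    linarith
  have hX2 : (X : ℝ) ≤ 2 * (q : ℝ) ^ (K + 2) := by
    rw [hX]
    push_cast
    apply max_le
    · have e1 : ((d.natAbs : ℕ) : ℤ) ≤ (q : ℤ) ^ K := by rw [Int.natCast_natAbs]; exact hdK
      have e2 : d.natAbs ≤ q ^ K := by exact_mod_cast e1
      have e3 : ((d.natAbs : ℕ) : ℝ) ≤ (q : ℝ) ^ K := by exact_mod_cast e2
      have e4 : (q : ℝ) ^ K ≤ (q : ℝ) ^ (K + 2) := pow_le_pow_right₀ hq1r (by omega)
      have e5 : (0 : ℝ) ≤ (q : ℝ) ^ (K + 2) := by positivity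
      linarith
    · have e1 : (1 : ℝ) ≤ (q : ℝ) ^ (K + 2) := one_le_pow₀ hq1r
      linarith
  have hX1 : X ≠ 0 := by
    intro h
    rw [h, Nat.cast_zero] at hXY
    linarith
  obtain ⟨i, hi⟩ : ∃ i, i = Nat.log 2 X + 4 := ⟨_, rfl⟩
  have hi1 : 2 ^ i ≤ 16 * X := by
    rw [hi, pow_add]
    have := Nat.pow_log_le_self 2 hX1
    omega
  have hi2 : 8 * X ≤ 2 ^ i := by
    rw [hi, pow_add]
    have := Nat.lt_pow_succ_log_self (b := 2) (by norm_num) X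
    rw [pow_succ] at this
    omega
  have hi2r : 8 * (X : ℝ) ≤ ((2 ^ i : ℕ) : ℝ) := by exact_mod_cast hi2
  have hi1r : ((2 ^ i : ℕ) : ℝ) ≤ 16 * (X : ℝ) := by exact_mod_cast hi1
  have hX0 : (0 : ℝ) ≤ X := Nat.cast_nonneg _
  have hSi := hS i (by linarith) (by linarith) hδ1
  obtain ⟨N, hN⟩ : ∃ N, N = 2 ^ i := ⟨_, rfl⟩
  rw [← hN] at hSi hi1 hi2 hi2r
  have hXN : (X : ℝ) ≤ N := by linarith
  have hlogq : Real.log q ≤ Real.log N := Real.log_le_log hq0 (hqX.trans (hXY.trans hXN))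
  have hlogq0 : 0 ≤ Real.log q := Real.log_nonneg hq1r
  have hpow : Real.log q ^ T ≤ Real.log N ^ T := pow_le_pow_left₀ hlogq0 hlogq _
  obtain ⟨p, n, r, g1, g2, g3, g4, g5, g6, g7⟩ := sol_of_solv hSi hi2 hi1 hadm hq1' (haT.trans hpow) (hbT.trans hpow) hXd
  refine ⟨p, n, r, g1, g2, g3, g4, ?_⟩
  have hmax : max p (max n r) ≤ 3 * X := max_le g5 (max_le g6 g7)
  have hmaxr : ((max p (max n r) : ℕ) : ℝ) ≤ 3 * X := by exact_mod_cast hmax
  refine hmaxr.trans ?_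
  have hd0 : 0 ≤ |(d : ℝ)| := abs_nonneg _
  have hpos : 0 ≤ (q : ℝ) ^ (1 + ε) := by positivity
  rcases le_total d.natAbs Yc with h | h
  · have hXe : X = Yc := by rw [hX]; exact max_eq_right h
    rw [hXe]
    have e1 : 1 ≤ (q : ℝ) ^ (1 + δ / 2) := hq1r.trans hqX
    have e2 : (6 : ℝ) ≤ (q : ℝ) ^ (δ / 2) := by
      calc (6 : ℝ) = ((6 : ℝ) ^ (2 / δ)) ^ (δ / 2) := by
            rw [← Real.rpow_mul (by norm_num)]
            have : 2 / δ * (δ / 2) = 1 := by field_simp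
            rw [this, Real.rpow_one]
        _ ≤ (q : ℝ) ^ (δ / 2) := Real.rpow_le_rpow (by positivity) hq6 (by positivity)
    have e3 : 3 * (Yc : ℝ) ≤ (q : ℝ) ^ (1 + ε) := by
      calc 3 * (Yc : ℝ) ≤ 6 * (q : ℝ) ^ (1 + δ / 2) := by linarith
        _ ≤ (q : ℝ) ^ (δ / 2) * (q : ℝ) ^ (1 + δ / 2) := mul_le_mul_of_nonneg_right e2 (by positivity)
        _ = (q : ℝ) ^ (δ / 2 + (1 + δ / 2)) := (Real.rpow_add hq0 _ _).symm
        _ ≤ (q : ℝ) ^ (1 + ε) := Real.rpow_le_rpow_of_exponent_le hq1r (by linarith)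
    linarith
  · have hXe : X = d.natAbs := by rw [hX]; exact max_eq_left h
    rw [hXe, Nat.cast_natAbs]
    push_cast
    linarith

/-- powers of the number of digits are small -/
lemma pow_ev {b : ℕ} (hb : 2 ≤ b) (κ η : ℝ) (hκ : 0 < κ) (hη : 0 < η) (E : ℕ) :
    ∃ M₀ : ℕ, ∀ M : ℕ, M₀ ≤ M → κ * (M : ℝ) ^ E ≤ ((b : ℝ) ^ M) ^ η := by
  obtain ⟨N₀, h0⟩ := rpow_log_ev (κ * 2 ^ E) η (by positivity) hη E
  refine ⟨N₀, fun M hM => ?_⟩
  have h1 : M < b ^ M := Nat.lt_pow_self (by omega)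
  have h2 := h0 (b ^ M) (by omega)
  have hM0 : (0 : ℝ) ≤ M := Nat.cast_nonneg _
  have h3 : (M : ℝ) ≤ 2 * Real.log ((b ^ M : ℕ) : ℝ) := by
    push_cast
    rw [Real.log_pow]
    have h4 : Real.log 2 ≤ Real.log b := Real.log_le_log (by norm_num) (by exact_mod_cast hb)
    have h5 := Real.log_two_gt_d9
    nlinarith
  have h6 : (M : ℝ) ^ E ≤ 2 ^ E * Real.log ((b ^ M : ℕ) : ℝ) ^ E := by
    rw [← mul_pow]
    exact pow_le_pow_left₀ hM0 h3 _
  calc κ * (M : ℝ) ^ E ≤ κ * (2 ^ E * Real.log ((b ^ M : ℕ) : ℝ) ^ E) := mul_le_mul_of_nonneg_left h6 hκ.le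
    _ = κ * 2 ^ E * Real.log ((b ^ M : ℕ) : ℝ) ^ E := by ring
    _ ≤ (((b ^ M : ℕ) : ℝ)) ^ η := h2
    _ = ((b : ℝ) ^ M) ^ η := by push_cast; rfl

/-- the sizes -/
lemma ev_M (b A K : ℕ) (hb : 2 ≤ b) (δ : ℝ) (hδ : 0 < δ) (N₀ : ℕ) : ∃ M₀ : ℕ, ∀ M : ℕ, M₀ ≤ M →
    1 ≤ M ∧ N₀ ≤ M ∧
    (b : ℝ) * (4 * (M : ℝ) ^ A) ^ b ≤ ((b : ℝ) ^ M) ^ (δ / 8) ∧
    32 * (2 * (M : ℝ) ^ A) ^ (K + 2) ≤ (b : ℝ) ^ M ∧
    (M : ℝ) ≤ ((b : ℝ) ^ M) ^ (1 / 2 : ℝ) ∧
    (2 : ℝ) ^ (A + 4) * (K + 4) * b ≤ M ∧ (6 : ℝ) ^ (2 / δ) ≤ M := by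
  have hb0 : (0 : ℝ) < b := by exact_mod_cast (by omega : 0 < b)
  obtain ⟨M₁, h1⟩ := pow_ev hb ((b : ℝ) * 4 ^ b) (δ / 8) (by positivity) (by linarith) (A * b)
  obtain ⟨M₂, h2⟩ := pow_ev hb (32 * 2 ^ (K + 2)) 1 (by positivity) (by norm_num) (A * (K + 2))
  obtain ⟨M₃, h3⟩ := pow_ev hb 1 (1 / 2) (by norm_num) (by norm_num) 1
  obtain ⟨M₄, h4⟩ := exists_nat_ge ((6 : ℝ) ^ (2 / δ))
  refine ⟨M₁ + M₂ + M₃ + M₄ + N₀ + 1 + 2 ^ (A + 4) * (K + 4) * b, fun M hM => ?_⟩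
  refine ⟨by omega, by omega, ?_, ?_, ?_, ?_, ?_⟩
  · have := h1 M (by omega)
    rw [mul_pow, ← pow_mul]
    linarith
  · have := h2 M (by omega)
    rw [Real.rpow_one] at this
    rw [mul_pow, ← pow_mul]
    linarith
  · have := h3 M (by omega)
    rw [pow_one, one_mul] at this
    exact this
  · have h5 : 2 ^ (A + 4) * (K + 4) * b ≤ M := by omega
    exact_mod_cast h5
  · have h5 : ((M₄ : ℕ) : ℝ) ≤ M := by exact_mod_cast (by omega : M₄ ≤ M)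
    linarith

open Classical in
theorem coef {b : ℕ} (hb : 2 ≤ b) (ε : ℝ) (hε : 0 < ε) (A T K : ℕ) : ∃ M₀ : ℕ, ∀ M : ℕ, M₀ ≤ M →
    ∀ (c₀ : ℕ) (𝒟 : ℕ → Finset ℕ), DS b 𝒟 → c₀ ≤ b ^ M * M ^ A →
      (((Dg b 𝒟 M).filter (fun k => ¬ GoodQ ε T K (c₀ + k))).card : ℝ) ≤ (Dg b 𝒟 M).card / (M : ℝ) ^ A := by
  obtain ⟨δ, hδ⟩ : ∃ δ : ℝ, δ = min ε 1 := ⟨_, rfl⟩
  have hδ0 : 0 < δ := by rw [hδ]; exact lt_min hε one_pos
  have hδ1 : δ ≤ 1 := by rw [hδ]; exact min_le_right _ _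
  have hδε : δ ≤ ε := by rw [hδ]; exact min_le_left _ _
  have hK0 : (0 : ℝ) ≤ K := Nat.cast_nonneg _
  obtain ⟨η, hη⟩ : ∃ η : ℝ, η = min (δ / 5) (1 / (K + 3)) := ⟨_, rfl⟩
  have hη0 : 0 < η := by rw [hη]; exact lt_min (by linarith) (by positivity)
  have hη1 : η ≤ δ / 5 := by rw [hη]; exact min_le_left _ _
  have hη2 : (K + 3 : ℝ) * η ≤ 1 := by
    have : η ≤ 1 / (K + 3) := by rw [hη]; exact min_le_right _ _
    rw [le_div_iff₀ (by positivity)] at this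
    linarith
  obtain ⟨A', hA'⟩ : ∃ A' : ℕ, A' = max (4 * T + 10) (A + 2) := ⟨_, rfl⟩
  have hA'1 : 4 * T + 10 ≤ A' := by rw [hA']; exact le_max_left _ _
  have hA'2 : A + 2 ≤ A' := by rw [hA']; exact le_max_right _ _
  obtain ⟨N₀, h0⟩ := scaleN hb η hη0 T A' hA'1
  obtain ⟨M₀, hM₀⟩ := ev_M b A K hb δ hδ0 (N₀ + 2 * 2 ^ A + 4)
  refine ⟨M₀, fun M hM c₀ 𝒟 hDS hc₀ => ?_⟩
  obtain ⟨m1, m2, m3, m4, m5, m6, m7⟩ := hM₀ M hM
  have hb2 : (2 : ℝ) ≤ b := by exact_mod_cast hb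
  have hb0 : (0 : ℝ) < b := by linarith
  have hM1 : (1 : ℝ) ≤ M := by exact_mod_cast m1
  have hM0 : (0 : ℝ) < M := by linarith
  obtain ⟨S, hS⟩ : ∃ S : ℝ, S = (M : ℝ) ^ A := ⟨_, rfl⟩
  have hS1 : 1 ≤ S := by rw [hS]; exact one_le_pow₀ hM1
  have hS0 : 0 < S := by linarith
  obtain ⟨B, hB⟩ : ∃ B, B = (b : ℝ) ^ M := ⟨_, rfl⟩
  have hB1 : 1 ≤ B := by rw [hB]; exact one_le_pow₀ (by linarith)
  have hB0 : 0 < B := by linarith
  rw [← hS, ← hB] at m3 m4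
  rw [← hB] at m5
  have hc₀r : (c₀ : ℝ) ≤ B * S := by rw [hB, hS]; exact_mod_cast hc₀
  -- the number of the top digits
  obtain ⟨n, hn1, hn2, hn3⟩ := exists_m (2 * S) (by linarith)
  have hbn : (b : ℝ) ^ n ≤ (4 * S) ^ b := by
    have e1 : (b : ℝ) ^ n ≤ (2 ^ b : ℝ) ^ n := by
      apply pow_le_pow_left₀ hb0.le
      exact_mod_cast Nat.lt_two_pow_self.le
    calc (b : ℝ) ^ n ≤ (2 ^ b : ℝ) ^ n := e1
      _ = (2 ^ n : ℝ) ^ b := by rw [← pow_mul, ← pow_mul, mul_comm]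
      _ ≤ (4 * S) ^ b := pow_le_pow_left₀ (by positivity) (by linarith) _
  have hbn0 : (0 : ℝ) < (b : ℝ) ^ n := by positivity
  have hbnB : (b : ℝ) * (b : ℝ) ^ n ≤ B ^ (δ / 8) :=
    (mul_le_mul_of_nonneg_left hbn hb0.le).trans m3
  have hBδ : B ^ (δ / 8) ≤ B := by
    calc B ^ (δ / 8) ≤ B ^ (1 : ℝ) := Real.rpow_le_rpow_of_exponent_le hB1 (by linarith)
      _ = B := Real.rpow_one _
  have hnM : n ≤ M := by
    by_contra hcon
    push Not at hcon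
    have e1 : B ≤ (b : ℝ) ^ n := by rw [hB]; exact pow_le_pow_right₀ (by linarith) hcon.le
    nlinarith
  obtain ⟨j, hj⟩ : ∃ j, M = j + n := ⟨M - n, by omega⟩
  have hDgj : Dg b 𝒟 M = Dg b 𝒟 (j + n) := by rw [hj]
  have hBj : B = (b : ℝ) ^ j * (b : ℝ) ^ n := by rw [hB, hj, pow_add]
  obtain ⟨Z, hZ⟩ : ∃ Z : ℝ, Z = ((Dg b 𝒟 M).card : ℝ) := ⟨_, rfl⟩
  have hZ0 : 0 ≤ Z := by rw [hZ]; exact Nat.cast_nonneg _
  -- the scales
  obtain ⟨SI, hSI⟩ : ∃ SI : ℕ → Finset ℕ, SI = fun i => (Dg b 𝒟 M).filter (fun k => 1 ≤ c₀ + k ∧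
    (((2 ^ i : ℕ) : ℝ)) ^ η ≤ B ∧ B ≤ (((2 ^ i : ℕ) : ℝ)) ^ (1 - η) ∧ ¬ Solv (2 ^ i) T (c₀ + k)) := ⟨_, rfl⟩
  have hSIc : ∀ i, ((SI i).card : ℝ) ≤ Z * (2 ^ (A + 2) / (S * (M : ℝ) ^ 2)) := by
    intro i
    by_cases hcond : (((2 ^ i : ℕ) : ℝ)) ^ η ≤ B ∧ B ≤ (((2 ^ i : ℕ) : ℝ)) ^ (1 - η)
    · obtain ⟨c1, c2⟩ := hcond
      have hN1 : (1 : ℝ) ≤ ((2 ^ i : ℕ) : ℝ) := by exact_mod_cast Nat.one_le_two_pow
      have hBN : B ≤ ((2 ^ i : ℕ) : ℝ) := by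
        refine c2.trans ?_
        calc (((2 ^ i : ℕ) : ℝ)) ^ (1 - η) ≤ (((2 ^ i : ℕ) : ℝ)) ^ (1 : ℝ) :=
              Real.rpow_le_rpow_of_exponent_le hN1 (by linarith)
          _ = _ := Real.rpow_one _
      have hbMN : b ^ M ≤ 2 ^ i := by
        have : ((b ^ M : ℕ) : ℝ) ≤ ((2 ^ i : ℕ) : ℝ) := by push_cast; rw [← hB]; exact_mod_cast hBN
        exact_mod_cast this
      have hMN : M < 2 ^ i := lt_of_lt_of_le (Nat.lt_pow_self (by omega)) hbMN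
      have hlog : (M : ℝ) / 2 ≤ Real.log ((2 ^ i : ℕ) : ℝ) := by
        have e1 := Real.log_le_log hB0 hBN
        rw [hB, Real.log_pow] at e1
        have h4 : Real.log 2 ≤ Real.log b := Real.log_le_log (by norm_num) hb2
        have h5 := Real.log_two_gt_d9
        nlinarith
      obtain ⟨L, hL⟩ : ∃ L, L = Real.log ((2 ^ i : ℕ) : ℝ) := ⟨_, rfl⟩
      have h00 := h0 (2 ^ i) (by omega) M c₀ 𝒟 hDS (by rw [← hB]; exact c1) (by rw [← hB]; exact c2)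
      rw [← hL] at hlog h00
      have hML : (2 ^ A : ℝ) + 1 ≤ L := by
        have : ((N₀ + 2 * 2 ^ A + 4 : ℕ) : ℝ) ≤ M := by exact_mod_cast m2
        push_cast at this
        have e2 : (0 : ℝ) ≤ N₀ := Nat.cast_nonneg _
        linarith
      have hL1 : 1 ≤ L := by
        have : (0 : ℝ) < 2 ^ A := by positivity
        linarith
      have hSL : S ≤ L ^ A' := by
        calc S = (M : ℝ) ^ A := hS
          _ ≤ (2 * L) ^ A := pow_le_pow_left₀ hM0.le (by linarith) _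
          _ = 2 ^ A * L ^ A := by rw [mul_pow]
          _ ≤ L * L ^ A := mul_le_mul_of_nonneg_right (by linarith) (by positivity)
          _ = L ^ (A + 1) := by ring
          _ ≤ L ^ A' := pow_le_pow_right₀ hL1 (by omega)
      have h01 := h00 (by rw [← hB]; exact hc₀r.trans (mul_le_mul_of_nonneg_left hSL hB0.le)) (SI i)
        (by rw [hSI]; exact filter_subset _ _) (by
          intro k hk
          rw [hSI] at hk
          obtain ⟨-, h5, -, -, h6⟩ := mem_filter.1 hk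
          exact ⟨h5, h6⟩)
      rw [← hZ] at h01
      refine h01.trans ?_
      rw [← mul_div_assoc]
      rw [div_le_div_iff₀ (by positivity) (by positivity)]
      rw [mul_assoc]
      apply mul_le_mul_of_nonneg_left _ hZ0
      calc S * (M : ℝ) ^ 2 = (M : ℝ) ^ (A + 2) := by rw [hS, pow_add]
        _ ≤ (2 * L) ^ (A + 2) := pow_le_pow_left₀ hM0.le (by linarith) _
        _ = 2 ^ (A + 2) * L ^ (A + 2) := by rw [mul_pow]
        _ ≤ 2 ^ (A + 2) * L ^ A' := by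
            apply mul_le_mul_of_nonneg_left _ (by positivity)
            exact pow_le_pow_right₀ hL1 hA'2
    · have : SI i = ∅ := by
        rw [hSI]
        apply filter_false_of_mem
        intro k _ hk
        exact hcond ⟨hk.2.1, hk.2.2.1⟩
      rw [this, card_empty, Nat.cast_zero]
      positivity
  -- the bad coefficients
  obtain ⟨W, hW⟩ : ∃ W : ℕ, W = b * (M * (K + 3)) + 1 := ⟨_, rfl⟩
  have hsub : (Dg b 𝒟 M).filter (fun k => ¬ GoodQ ε T K (c₀ + k)) ⊆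
      (Dg b 𝒟 (j + n)).filter (fun k => k < b ^ j) ∪ (range W).biUnion SI := by
    intro k hk
    obtain ⟨hk1, hk2⟩ := mem_filter.1 hk
    rw [mem_union, mem_filter, mem_biUnion]
    by_contra hcon
    push Not at hcon
    obtain ⟨hc1, hc2⟩ := hcon
    have hkj : b ^ j ≤ k := hc1 (by rw [← hDgj]; exact hk1)
    apply hk2
    obtain ⟨q, hq⟩ : ∃ q, q = c₀ + k := ⟨_, rfl⟩
    rw [← hq]
    have hbj1 : 1 ≤ b ^ j := Nat.one_le_pow _ _ (by omega)
    have hq1 : 1 ≤ q := by omega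
    have hq1r : (1 : ℝ) ≤ q := by exact_mod_cast hq1
    have hq0 : (0 : ℝ) < q := by linarith
    have hqlo : B ^ (1 - δ / 8) ≤ q := by
      have e1 : (b : ℝ) ^ j ≤ q := by
        have : b ^ j ≤ q := by omega
        exact_mod_cast this
      have e2 : B ^ (1 - δ / 8) * B ^ (δ / 8) = B := by
        rw [← Real.rpow_add hB0]
        simp
      have e3 : (b : ℝ) ^ n ≤ B ^ (δ / 8) := by nlinarith
      have e4 : B ≤ q * B ^ (δ / 8) := by
        calc B = (b : ℝ) ^ j * (b : ℝ) ^ n := hBj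
          _ ≤ q * B ^ (δ / 8) := mul_le_mul e1 e3 hbn0.le hq0.le
      exact le_of_mul_le_mul_right (by rw [e2]; exact e4) (Real.rpow_pos_of_pos hB0 (δ / 8))
    have hqhi : (q : ℝ) ≤ B * (2 * S) := by
      have hk3 : (k : ℝ) ≤ B := by
        have h5 := (mem_filter.1 hk1).1
        rw [mem_range] at h5
        rw [hB]
        exact_mod_cast h5.le
      rw [hq]
      push_cast
      nlinarith
    apply good_of_scales hδ0 hδε hq1 _ _ hδ1
    · refine m7.trans (m5.trans (le_trans ?_ hqlo))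
      exact Real.rpow_le_rpow_of_exponent_le hB1 (by linarith)
    · intro i hi1 hi2 _
      by_contra hns
      have hN1 : (1 : ℝ) ≤ ((2 ^ i : ℕ) : ℝ) := by exact_mod_cast Nat.one_le_two_pow
      have hlo : B ^ (1 + δ / 4) ≤ ((2 ^ i : ℕ) : ℝ) := by
        refine le_trans ?_ hi1
        calc B ^ (1 + δ / 4) ≤ B ^ ((1 - δ / 8) * (1 + δ / 2)) := by
              apply Real.rpow_le_rpow_of_exponent_le hB1
              nlinarith
          _ = (B ^ (1 - δ / 8)) ^ (1 + δ / 2) := Real.rpow_mul hB0.le _ _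
          _ ≤ (q : ℝ) ^ (1 + δ / 2) := Real.rpow_le_rpow (by positivity) hqlo (by linarith)
      have hhi : ((2 ^ i : ℕ) : ℝ) ≤ B ^ (K + 3) := by
        refine hi2.trans ?_
        calc 32 * (q : ℝ) ^ (K + 2) ≤ 32 * (B * (2 * S)) ^ (K + 2) := by
              apply mul_le_mul_of_nonneg_left _ (by norm_num)
              exact pow_le_pow_left₀ hq0.le hqhi _
          _ = (32 * (2 * S) ^ (K + 2)) * B ^ (K + 2) := by rw [mul_pow]; ring
          _ ≤ B * B ^ (K + 2) := mul_le_mul_of_nonneg_right m4 (by positivity)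
          _ = B ^ (K + 3) := by ring
      have hiW : i ∈ range W := by
        rw [mem_range]
        have e1 : ((2 ^ i : ℕ) : ℝ) ≤ ((2 ^ (b * (M * (K + 3))) : ℕ) : ℝ) := by
          refine hhi.trans ?_
          push_cast
          rw [hB, ← pow_mul, pow_mul (2 : ℝ) b (M * (K + 3))]
          exact pow_le_pow_left₀ hb0.le (by exact_mod_cast (Nat.lt_two_pow_self (n := b)).le : (b : ℝ) ≤ 2 ^ b) _
        have e2 : 2 ^ i ≤ 2 ^ (b * (M * (K + 3))) := by exact_mod_cast e1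
        have := (Nat.pow_le_pow_iff_right (by norm_num : 1 < 2)).1 e2
        omega
      apply hc2 i hiW
      rw [hSI]
      apply mem_filter.2
      refine ⟨hk1, by omega, ?_, ?_, by rw [← hq]; exact hns⟩
      · calc (((2 ^ i : ℕ) : ℝ)) ^ η ≤ (B ^ (K + 3)) ^ η := Real.rpow_le_rpow (by positivity) hhi hη0.le
          _ = B ^ ((K + 3 : ℝ) * η) := by
              rw [Real.rpow_mul hB0.le]
              congr 1
              rw [← Real.rpow_natCast]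
              congr 1
              push_cast
              ring
          _ ≤ B ^ (1 : ℝ) := Real.rpow_le_rpow_of_exponent_le hB1 hη2
          _ = B := Real.rpow_one _
      · calc B = B ^ (1 : ℝ) := (Real.rpow_one _).symm
          _ ≤ B ^ ((1 + δ / 4) * (1 - η)) := by
              apply Real.rpow_le_rpow_of_exponent_le hB1
              nlinarith
          _ = (B ^ (1 + δ / 4)) ^ (1 - η) := Real.rpow_mul hB0.le _ _
          _ ≤ (((2 ^ i : ℕ) : ℝ)) ^ (1 - η) := Real.rpow_le_rpow (by positivity) hlo (by linarith)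
  -- counting
  have hsmall := small_le hb hDS j n
  rw [← hDgj, ← hZ] at hsmall
  rw [← hDgj] at hsub
  have hc1 : (((Dg b 𝒟 M).filter (fun k => ¬ GoodQ ε T K (c₀ + k))).card : ℝ) ≤
      (((Dg b 𝒟 M).filter (fun k => k < b ^ j)).card : ℝ) + ∑ i ∈ range W, ((SI i).card : ℝ) := by
    have e1 := (card_le_card hsub).trans (card_union_le _ _)
    have e2 : ((range W).biUnion SI).card ≤ ∑ i ∈ range W, (SI i).card := card_biUnion_le
    have e3 : ((Dg b 𝒟 M).filter (fun k => ¬ GoodQ ε T K (c₀ + k))).card ≤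
      ((Dg b 𝒟 M).filter (fun k => k < b ^ j)).card + ∑ i ∈ range W, (SI i).card := e1.trans (by omega)
    exact_mod_cast e3
  have hc2 : ∑ i ∈ range W, ((SI i).card : ℝ) ≤ Z / (2 * S) := by
    calc ∑ i ∈ range W, ((SI i).card : ℝ) ≤ ∑ _i ∈ range W, Z * (2 ^ (A + 2) / (S * (M : ℝ) ^ 2)) :=
          sum_le_sum (fun i _ => hSIc i)
      _ = W * (Z * (2 ^ (A + 2) / (S * (M : ℝ) ^ 2))) := by rw [sum_const, card_range, nsmul_eq_mul]
      _ = Z * (W * 2 ^ (A + 2)) / (S * (M : ℝ) ^ 2) := by ring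
      _ ≤ Z / (2 * S) := by
          rw [div_le_div_iff₀ (by positivity) (by positivity)]
          rw [mul_assoc]
          apply mul_le_mul_of_nonneg_left _ hZ0
          have e1 : (W : ℝ) ≤ b * (M * (K + 4)) := by
            rw [hW]
            push_cast
            have : (1 : ℝ) ≤ b * M := by nlinarith
            nlinarith
          have e2 : (W : ℝ) * 2 ^ (A + 2) * (2 * S) ≤ (b * (M * (K + 4))) * 2 ^ (A + 2) * (2 * S) := by
            have : (0 : ℝ) ≤ 2 ^ (A + 2) * (2 * S) := by positivity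
            have := mul_le_mul_of_nonneg_right e1 this
            linarith
          refine e2.trans ?_
          have e3 : (b * (M * (K + 4))) * 2 ^ (A + 2) * (2 * S) = (2 ^ (A + 3) * (K + 4) * b) * (S * M) := by
            rw [show A + 3 = (A + 2) + 1 by ring, pow_succ (2 : ℝ) (A + 2)]
            ring
          rw [e3]
          have e4 : (2 : ℝ) ^ (A + 3) * (K + 4) * b ≤ M := by
            refine le_trans ?_ m6
            have : (2 : ℝ) ^ (A + 3) ≤ 2 ^ (A + 4) := pow_le_pow_right₀ (by norm_num) (by omega)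
            have h5 : (0 : ℝ) ≤ (K + 4) * b := by positivity
            have := mul_le_mul_of_nonneg_right this h5
            linarith
          calc (2 : ℝ) ^ (A + 3) * (K + 4) * b * (S * M) ≤ M * (S * M) :=
                mul_le_mul_of_nonneg_right e4 (by positivity)
            _ = S * (M : ℝ) ^ 2 := by ring
  have hc3 : Z / 2 ^ n ≤ Z / (2 * S) := div_le_div_of_nonneg_left hZ0 (by positivity) hn2.le
  rw [← hZ, ← hS]
  calc _ ≤ Z / (2 * S) + Z / (2 * S) := by linarith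
    _ = Z / S := by field_simp; ring

end Pool.Agent.X275.MD
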